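import Pool.Agent.Helper77.GL.Lanes
import Pool.Agent.Helper34.BIC.Side

/-!
# Connected sets of cells are mergeable
-/

open Set

namespace Gad

open BIC

variable {α V ι : Type*} [Fintype ι] {M : Matroid α} {S : Set α} {ends : α → Sym2 V} {ψ : V → α}
  {N : ℕ} {X : Set α} {W : ℕ × ℕ → Set V}

lemma exit {β : Type*} {r : β → β → Prop} {R : Set β} {a b : β}
    (h : Relation.ReflTransGen r a b) (ha : a ∈ R) (hb : b ∉ R) : ∃ x ∈ R, ∃ y, y ∉ R ∧ r x y := by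
  induction h with
  | refl => exact absurd ha hb
  | @tail b c _ h2 ih =>
    by_cases hbR : b ∈ R
    · exact ⟨b, hbR, c, hb, h2⟩
    · exact ih hbR

lemma rung_of_adj (h : Board ι M S ends ψ N X W) {a b : ℕ × ℕ} (ha : a.1 < N ∧ a.2 < N)
    (hb : b.1 < N ∧ b.2 < N) (hab : Adj a b) : Rung ι S ends (W a) (W b) := by
  obtain ⟨a1, a2⟩ := a
  obtain ⟨b1, b2⟩ := b
  simp only at ha hb
  unfold Adj at hab
  simp only at hab
  rcases hab with ⟨rfl, rfl | rfl⟩ | ⟨rfl, rfl | rfl⟩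
  · exact h.rd _ _ ha.1 hb.2
  · exact (h.rd _ _ ha.1 ha.2).symm
  · exact h.rl _ _ hb.1 ha.2
  · exact (h.rl _ _ ha.1 ha.2).symm

lemma pq_of_conn (h : Board ι M S ends ψ N X W) (Q : Finset (ℕ × ℕ)) (hQ : Conn (Q : Set (ℕ × ℕ)))
    (hin : Board.Inb N Q) : PQ ι M S ends ψ X W Q := by
  classical
  obtain ⟨a, ha⟩ := hQ.1
  have ha' : a ∈ Q := ha
  set 𝓕 : Finset (Finset (ℕ × ℕ)) :=
    Q.powerset.filter (fun R => a ∈ R ∧ PQ ι M S ends ψ X W R) with h𝓕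
  have hne : 𝓕.Nonempty := by
    refine ⟨{a}, Finset.mem_filter.2 ⟨Finset.mem_powerset.2 (by simpa using ha'), by simp, ?_⟩⟩
    exact h.one a (hin a ha').1 (hin a ha').2
  obtain ⟨R, hR, hmax⟩ := Finset.exists_max_image 𝓕 Finset.card hne
  obtain ⟨hRQ, haR, hPQ⟩ := Finset.mem_filter.1 hR
  rw [Finset.mem_powerset] at hRQ
  by_cases hRQ' : R = Q
  · rw [← hRQ']; exact hPQ
  · exfalso
    obtain ⟨b, hbQ, hbR⟩ : ∃ b ∈ Q, b ∉ R := by
      by_contra hcon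
      push Not at hcon
      exact hRQ' (Finset.Subset.antisymm hRQ hcon)
    obtain ⟨x, hx, y, hy, hxy, hxQ, hyQ⟩ := exit (R := (R : Set (ℕ × ℕ))) (hQ.2 a ha b hbQ)
      haR hbR
    have hyQ' : y ∈ Q := hyQ
    have h1 := h.add (fun c hc => hin c (hRQ hc)) hPQ (c := y) (c' := x) (hin y hyQ') hx
      (rung_of_adj h (hin x hxQ) (hin y hyQ') hxy)
    have h2 : insert y R ∈ 𝓕 := by
      refine Finset.mem_filter.2 ⟨Finset.mem_powerset.2 ?_, Finset.mem_insert_of_mem haR, h1.1⟩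
      exact Finset.insert_subset hyQ' hRQ
    have h3 := hmax _ h2
    rw [Finset.card_insert_of_notMem hy] at h3
    omega

end Gad
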