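import Pool.Agent.Helper77.GL.GridA

/-!
# Gadget lemma, form A: general version
-/

open Set
open scoped Matroid

namespace Gad

open BIC BIC.Net

variable {α : Type*}

lemma HasUniformMinor.mono {M M' : Matroid α} {k : ℕ} (h : HasUniformMinor M' k) (hM : M' ≤m M) :
    HasUniformMinor M k := by
  obtain ⟨N, h1, h2, h3⟩ := h
  exact ⟨N, h1.trans hM, h2, h3⟩

/-- **Gadget lemma, form A.**  `M|S` is the bicircular matroid of a graph with an `n × n` grid
(`n = 2 · 4^k · N`), the `k²` elements `z g` outside `S` lie in the closure of `S`, each has legs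
in three boxes of radius `r`, all these boxes are far apart from each other and from the boundary,
and no gadget has a leg in the (slightly enlarged) boxes of the others.  Then `M` has a
`U_{k,2k}`-minor. -/
theorem formA_grid {k r : ℕ} (hk : 1 ≤ k) {M : Matroid α} [M.Finite] {S : Set α} {V : Type}
    [Finite V] {G : SimpleGraph V} {vt : ℕ → ℕ → V} {ap : V} {n N : ℕ}
    (hG : GridLike n G vt ap) (hn : n = 2 * 4 ^ k * N) {φ : Sym2 V → α} {ends : α → Sym2 V}
    (hφ : ∀ x ∈ G.edgeSet, φ x ∈ S ∧ ends (φ x) = x) (hB : Bic M S ends)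
    (z : Fin (k * k) → α) (hz : ∀ g, z g ∈ M.closure S ∧ z g ∉ S)
    (c : Fin (k * k) → Fin 3 → ℕ × ℕ)
    (hm : ∀ g j, DG k r ≤ (c g j).1 ∧ DG k r ≤ (c g j).2 ∧ (c g j).1 + DG k r ≤ n ∧
      (c g j).2 + DG k r ≤ n)
    (hfar : ∀ g j g' j', (g, j) ≠ (g', j') → (c g j).1 + DG k r ≤ (c g' j').1 ∨
      (c g' j').1 + DG k r ≤ (c g j).1 ∨ (c g j).2 + DG k r ≤ (c g' j').2 ∨
      (c g' j').2 + DG k r ≤ (c g j).2)
    (hleg : ∀ g j, z g ∉ M.closure (ins S ends (box vt (c g j) r)ᶜ))
    (hpriv : ∀ g j g', g' ≠ g →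
      z g' ∈ M.closure (ins S ends (box vt (c g j) (r + 2 * 4 ^ k))ᶜ)) :
    HasUniformMinor M k := by
  have hR : M.closure S ⊆ M.E := M.closure_subset_ground S
  have hSR : S ⊆ M.closure S := M.subset_closure S hB.sub
  set M' := M ↾ M.closure S with hM'
  haveI : M'.Finite := by
    refine ⟨?_⟩
    rw [hM', Matroid.restrict_ground_eq]
    exact M.ground_finite.subset hR
  have hle : M' ≤m M := by
    rw [hM', ← Matroid.delete_compl hR]
    exact ⟨∅, M.E \ M.closure S, by rw [Matroid.contract_empty]⟩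
  refine HasUniformMinor.mono (M' := M') ?_ hle
  have hB' : Bic M' S ends := by
    refine hB.of_restrict_eq ?_ ?_
    · rw [hM', Matroid.restrict_ground_eq]
      exact hSR
    · rw [hM', Matroid.restrict_restrict_eq _ hSR]
  have hcl : ∀ Y ⊆ M.closure S, M'.closure Y = M.closure Y ∩ M.closure S := fun Y hY => by
    rw [hM', M.restrict_closure_eq hY hR]
  have hins : ∀ W : Set V, ins S ends W ⊆ M.closure S := fun W e he => hSR he.1
  refine formA_span (r := r) hk hG hn hφ hB' ?_ z ?_ c hm hfar ?_ ?_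
  · rw [Matroid.spanning_iff_closure_eq (by
      rw [hM', Matroid.restrict_ground_eq]
      exact hSR), hcl S hSR, inter_self, hM', Matroid.restrict_ground_eq]
  · intro g
    refine ⟨?_, (hz g).2⟩
    rw [hM', Matroid.restrict_ground_eq]
    exact (hz g).1
  · intro g j hcon
    rw [hcl _ (hins _)] at hcon
    exact hleg g j hcon.1
  · intro g j g' hne
    rw [hcl _ (hins _)]
    exact ⟨hpriv g j g' hne, (hz g').1⟩

end Gad
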