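import Mathlib

/-!
# Exchange at private ports
-/

open Set

namespace Gad

variable {α γ : Type*} {M : Matroid α} {F : Set α}

/-- A leg in a set of elements gives a port. -/
lemma exists_port (hF : M.Indep F) {D : Set α} {z : α}
    (hz : z ∉ M.closure (F \ D)) (hz' : z ∈ M.closure F) :
    ∃ x ∈ D ∩ F, z ∉ M.closure (F \ {x}) := by
  by_contra hcon
  push Not at hcon
  apply hz
  rcases (D ∩ F).eq_empty_or_nonempty with he | hne
  · have : F \ D = F := by
      rw [sdiff_eq_left, Set.disjoint_left]
      intro x hx hxD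
      exact (he ▸ (⟨hxD, hx⟩ : x ∈ D ∩ F) : x ∈ (∅ : Set α))
    rwa [this]
  · have h3 := hF.closure_sInter_eq_biInter_closure_of_forall_subset
      (Js := (fun e => F \ {e}) '' (D ∩ F)) (hne.image _) (by
        rintro _ ⟨e, _, rfl⟩
        exact sdiff_subset)
    have h4 : ⋂₀ ((fun e => F \ {e}) '' (D ∩ F)) = F \ D := by
      ext y
      simp only [sInter_image, mem_iInter, mem_sdiff, mem_singleton_iff]
      constructor
      · intro hy
        obtain ⟨e, he⟩ := hne
        exact ⟨(hy e he).1, fun hyD => (hy y ⟨hyD, (hy e he).1⟩).2 rfl⟩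
      · rintro ⟨hy1, hy2⟩ e he
        exact ⟨hy1, fun h => hy2 (h ▸ he.1)⟩
    rw [h4] at h3
    rw [h3]
    simp only [mem_image, iInter_exists, biInter_and', iInter_iInter_eq_right, mem_iInter]
    intro e he
    exact hcon e he

/-- Simultaneous exchange of private ports. -/
lemma exch (hF : M.IsBase F) (z x : γ → α) (A : Finset γ)
    (hz : ∀ g ∈ A, z g ∈ M.E) (hx : ∀ g ∈ A, x g ∈ F)
    (h1 : ∀ g ∈ A, z g ∉ M.closure (F \ {x g}))
    (h2 : ∀ g ∈ A, ∀ g' ∈ A, g ≠ g' → z g' ∈ M.closure (F \ {x g})) :
    M.IsBase (z '' (A : Set γ) ∪ (F \ x '' (A : Set γ))) := by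
  classical
  induction A using Finset.induction_on with
  | empty => simpa using hF
  | insert g A hg ih =>
    have hgm := Finset.mem_insert_self g A
    have hsub : ∀ a ∈ A, a ∈ insert g A := fun a ha => Finset.mem_insert_of_mem ha
    have ih' := ih (fun a ha => hz a (hsub a ha)) (fun a ha => hx a (hsub a ha))
      (fun a ha => h1 a (hsub a ha)) (fun a ha b hb => h2 a (hsub a ha) b (hsub b hb))
    set B := z '' (A : Set γ) ∪ (F \ x '' (A : Set γ)) with hB
    have hxA : x g ∉ x '' (A : Set γ) := by
      rintro ⟨a, ha, hax⟩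
      have ha' : a ∈ A := ha
      have hne : a ≠ g := fun h => hg (h ▸ ha')
      have h3 := h2 a (hsub a ha') g hgm hne
      rw [hax] at h3
      exact h1 g hgm h3
    have hxz : x g ∉ z '' (A : Set γ) := by
      rintro ⟨a, ha, haz⟩
      have ha' : a ∈ A := ha
      have hne : g ≠ a := fun h => hg (h ▸ ha')
      have h3 := h2 g hgm a (hsub a ha') hne
      rw [haz] at h3
      exact hF.indep.notMem_closure_sdiff_of_mem (hx g hgm) h3
    have hxB : x g ∈ B := Or.inr ⟨hx g hgm, hxA⟩
    have hcl : B \ {x g} ⊆ M.closure (F \ {x g}) := by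
      rintro e ⟨he | he, hne⟩
      · obtain ⟨a, ha, rfl⟩ := he
        have ha' : a ∈ A := ha
        exact h2 g hgm a (hsub a ha') (fun h => hg (h ▸ ha'))
      · exact M.subset_closure _ (sdiff_subset.trans hF.subset_ground) ⟨he.1, hne⟩
    have hzc : z g ∉ M.closure (B \ {x g}) := fun h =>
      h1 g hgm (M.closure_subset_closure_of_subset_closure hcl h)
    have h4 := ih'.exchange_base_of_notMem_closure hxB hzc (hz g hgm)
    have e : z '' ((insert g A : Finset γ) : Set γ) ∪ (F \ x '' ((insert g A : Finset γ) : Set γ)) =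
        insert (z g) (B \ {x g}) := by
      rw [Finset.coe_insert, image_insert_eq, image_insert_eq, hB]
      ext e
      simp only [mem_union, mem_insert_iff, mem_sdiff, mem_singleton_iff]
      constructor
      · rintro ((h | h) | ⟨h, h'⟩)
        · exact Or.inl h
        · right
          refine ⟨Or.inl h, ?_⟩
          rintro rfl
          exact hxz h
        · right
          push Not at h'
          exact ⟨Or.inr ⟨h, h'.2⟩, h'.1⟩
      · rintro (h | ⟨h | ⟨h, h'⟩, h''⟩)
        · exact Or.inl (Or.inl h)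
        · exact Or.inl (Or.inr h)
        · right
          refine ⟨h, ?_⟩
          push Not
          exact ⟨h'', h'⟩
    rw [e]
    exact h4

end Gad
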