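import Pool.Agent.Helper77.GL.Conn
import Pool.Agent.Helper77.GL.Exch
import Pool.Agent.Helper34.BIC.CoreThm

/-!
# Gadget lemma, form A: far apart legs
-/

open Set
open scoped Matroid

namespace Gad

open BIC BIC.Net

variable {α V : Type*}

/-- Number of lanes. -/
def KA (k : ℕ) : ℕ := k * (k + 1)

/-- The distance used in form A. -/
def DA (k : ℕ) : ℕ := far (KA k) (3 * k * k) 0

/-- Positions with a gadget. -/
abbrev PosG (k : ℕ) : Type := ↥((posF k).filter (fun p => p.1 ≠ 0))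

/-- Code of a tree. -/
def enc (k : ℕ) (u : ℕ × ℕ) : ℕ := u.1 * (k + 1) + u.2

lemma enc_lt {k : ℕ} {u : ℕ × ℕ} (hu : u ∈ colF k) : enc k u < KA k := by
  obtain ⟨x, y⟩ := u
  rw [mem_colF] at hu
  unfold enc KA
  simp only
  have : (x + 1) * (k + 1) ≤ k * (k + 1) := Nat.mul_le_mul_right _ hu.1
  have e : (x + 1) * (k + 1) = x * (k + 1) + (k + 1) := by ring
  omega

lemma enc_inj {k : ℕ} {u u' : ℕ × ℕ} (hu : u ∈ colF k) (hu' : u' ∈ colF k)
    (h : enc k u = enc k u') : u = u' := by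
  obtain ⟨x, y⟩ := u
  obtain ⟨x', y'⟩ := u'
  rw [mem_colF] at hu hu'
  unfold enc at h
  simp only at h
  have hx : x = x' := by
    rcases Nat.lt_trichotomy x x' with h1 | h1 | h1
    · have : (x + 1) * (k + 1) ≤ x' * (k + 1) := Nat.mul_le_mul_right _ h1
      have e : (x + 1) * (k + 1) = x * (k + 1) + (k + 1) := by ring
      omega
    · exact h1
    · have : (x' + 1) * (k + 1) ≤ x * (k + 1) := Nat.mul_le_mul_right _ h1
      have e : (x' + 1) * (k + 1) = x' * (k + 1) + (k + 1) := by ring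
      omega
  subst hx
  have : y = y' := by omega
  rw [this]

lemma card_PosG (k : ℕ) : Fintype.card (PosG k) ≤ 3 * k * k := by
  rw [Fintype.card_coe]
  have h1 : (posF k).filter (fun p => p.1 ≠ 0) ⊆
      ({1, 2, 3} : Finset ℕ) ×ˢ (Finset.range k) ×ˢ (Finset.range k) := by
    rintro ⟨t, x, y⟩ hp
    obtain ⟨hp, h0⟩ := Finset.mem_filter.1 hp
    rw [mem_posF] at hp
    simp only at h0
    simp only [Finset.mem_product, Finset.mem_insert, Finset.mem_singleton, Finset.mem_range]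
    omega
  refine (Finset.card_le_card h1).trans ?_
  rw [Finset.card_product, Finset.card_product, Finset.card_range]
  have : ({1, 2, 3} : Finset ℕ).card = 3 := by decide
  rw [this, mul_assoc]

/-- Form A with ports given at the positions of the network. -/
theorem formA_core {k : ℕ} (hk : 1 ≤ k) {M : Matroid α} [M.Finite] {S : Set α}
    {ends : α → Sym2 V} {ψ : V → α} {N : ℕ} {X : Set α} {W : ℕ × ℕ → Set V}
    (hb : Board (Cond k) M S ends ψ N X W) (hF : M.IsBase (range ψ))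
    (hN : 2 * ht (KA k) (3 * k * k) ≤ N)
    (z : ℕ × ℕ → α) (hz : ∀ x < k, ∀ y < k, z (x, y) ∈ M.E ∧ z (x, y) ∉ S)
    (xp : PosG k → α) (c : PosG k → ℕ × ℕ)
    (hxX : ∀ p, xp p ∈ X) (hxc : ∀ p, xp p ∈ ψ '' W (c p))
    (hm : ∀ p, DA k ≤ (c p).1 ∧ DA k ≤ (c p).2 ∧ (c p).1 + DA k ≤ N ∧ (c p).2 + DA k ≤ N)
    (hfar : ∀ p p', p ≠ p' → (c p).1 + DA k ≤ (c p').1 ∨ (c p').1 + DA k ≤ (c p).1 ∨
      (c p).2 + DA k ≤ (c p').2 ∨ (c p').2 + DA k ≤ (c p).2)
    (h1 : ∀ p : PosG k, z p.1.2 ∉ M.closure (range ψ \ {xp p}))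
    (h2 : ∀ p : PosG k, ∀ x < k, ∀ y < k, (x, y) ≠ p.1.2 →
      z (x, y) ∈ M.closure (range ψ \ {xp p})) :
    HasUniformMinor M k := by
  classical
  have hKpos : 1 ≤ KA k := by
    unfold KA
    exact Nat.mul_pos hk (Nat.succ_pos k)
  have hmemG : ∀ p : PosG k, p.1 ∈ posF k ∧ p.1.1 ≠ 0 := fun p => Finset.mem_filter.1 p.2
  have hcol : ∀ p ∈ posF k, colN p ∈ colF k := by
    rintro ⟨t, x, y⟩ hp
    have h3 := mem_posF.1 hp
    rcases rel_cases hp with ⟨h4, h5, _, _, d⟩ | ⟨_, _, _, d⟩ | ⟨_, _, _, _, d⟩ | ⟨_, _, _, d⟩ <;>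
      rw [d, mem_colF] <;> omega
  obtain ⟨L, hL1, hL2, hL3, hL4⟩ := lanes (r := 0) (N := N) hKpos (card_PosG k)
    (fun p => (c p).1) (fun p => (c p).2) (fun p => enc k (colN p.1))
    (fun p => enc_lt (hcol _ (hmemG p).1)) hN hm hfar
  -- the trees
  have hfin : ∀ i < KA k, (L i).Finite := by
    intro i hi
    refine (((Finset.range N) ×ˢ (Finset.range N) : Finset (ℕ × ℕ)).finite_toSet).subset ?_
    intro b hbm
    have := hL2 i hi b hbm
    simp only [Finset.coe_product, Finset.coe_range, mem_prod, mem_Iio]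
    exact this
  have hQex : ∀ u : ↥(colF k), ∃ Q : Finset (ℕ × ℕ), (Q : Set (ℕ × ℕ)) = L (enc k u.1) := fun u =>
    (hfin _ (enc_lt u.2)).exists_finset_coe
  choose Q hQ using hQex
  have hQN : ∀ u, Board.Inb N (Q u) := by
    intro u b hbm
    have : b ∈ (Q u : Set (ℕ × ℕ)) := hbm
    rw [hQ] at this
    exact hL2 _ (enc_lt u.2) b this
  have hQP : ∀ u, PQ (Cond k) M S ends ψ X W (Q u) := by
    intro u
    refine pq_of_conn hb _ ?_ (hQN u)
    rw [hQ]
    exact hL1 _ (enc_lt u.2)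
  have hQd : ∀ u u', u ≠ u' → Disjoint (Q u) (Q u') := by
    intro u u' huu
    rw [← Finset.disjoint_coe, hQ, hQ]
    refine hL3 _ (enc_lt u.2) _ (enc_lt u'.2) ?_
    intro h
    exact huu (Subtype.ext (enc_inj u.2 u'.2 h))
  -- the routings
  have hrt : ∀ i : Cond k, ∃ μ : Set (ℕ × ℕ × ℕ), μ ⊆ (posF k : Set (ℕ × ℕ × ℕ)) ∧
      InjOn rowN μ ∧ InjOn colN μ ∧ (∀ u ∈ rowF k, u ∈ rowN '' μ ↔ (u.1 = 0 → u.2 ∈ i.1.1)) ∧
      (∀ u ∈ colF k, u ∈ colN '' μ ↔ (u.2 = k → u.1 ∈ i.1.2)) := by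
    intro i
    obtain ⟨h3, h4⟩ := Finset.mem_filter.1 i.2
    obtain ⟨h5, h6⟩ := Finset.mem_product.1 h3
    rw [Finset.mem_powerset] at h5 h6
    exact exists_routing (fun y hy => Finset.mem_range.1 (h5 hy))
      (fun y hy => Finset.mem_range.1 (h6 hy)) h4
  choose μ₀ hμ1 hμ2 hμ3 hμ4 hμ5 using hrt
  set μ : Cond k → Set (PosG k) := fun i => {p | p.1 ∈ μ₀ i} with hμ
  have hμfin : ∀ i, (μ i).Finite := fun i => Set.toFinite _
  set row : PosG k → ↥(colF k) := fun p => ⟨colN p.1, hcol _ (hmemG p).1⟩ with hrow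
  have hrow1 : ∀ p : PosG k, rowN p.1 = (p.1.2.1 + 1, p.1.2.2) := by
    intro p
    obtain ⟨⟨t, x, y⟩, hp⟩ := p
    have h3 := (Finset.mem_filter.1 hp).2
    simp only at h3
    unfold rowN
    simp only [h3, if_false]
  set R : Set α := {e | ∃ x < k, ∃ y < k, e = z (x, y)} with hR
  have hRi : ∀ i, (fun p : PosG k => z p.1.2) '' (μ i) = R := by
    intro i
    apply Subset.antisymm
    · rintro _ ⟨p, _, rfl⟩
      have h3 := mem_posF.1 (hmemG p).1
      exact ⟨p.1.2.1, h3.2.1, p.1.2.2, h3.2.2.1, rfl⟩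
    · rintro _ ⟨x, hx, y, hy, rfl⟩
      have h3 : ((x + 1, y) : ℕ × ℕ) ∈ rowN '' μ₀ i := by
        rw [hμ4 i _ (mem_rowF.2 ⟨by omega, hy⟩)]
        simp
      obtain ⟨p, hp, hpe⟩ := h3
      have hp1 : p ∈ posF k := hμ1 i hp
      have hp0 : p.1 ≠ 0 := by
        intro h0
        unfold rowN at hpe
        rw [if_pos h0, Prod.mk.injEq] at hpe
        omega
      refine ⟨⟨p, Finset.mem_filter.2 ⟨hp1, hp0⟩⟩, hp, ?_⟩
      unfold rowN at hpe
      rw [if_neg hp0, Prod.mk.injEq] at hpe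
      simp only
      congr 1
      exact Prod.ext (by simp only; omega) hpe.2
  have hbase : ∀ i, M.IsBase (R ∪ (range ψ \ (xp '' μ i))) := by
    intro i
    have h3 := exch hF (fun p : PosG k => z p.1.2) xp (hμfin i).toFinset
      (by
        intro p _
        have h3 := mem_posF.1 (hmemG p).1
        exact (hz _ h3.2.1 _ h3.2.2.1).1)
      (by
        intro p _
        obtain ⟨v, _, hv⟩ := hxc p
        exact ⟨v, hv⟩)
      (fun p _ => h1 p)
      (by
        intro p hp p' hp' hne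
        rw [Set.Finite.mem_toFinset] at hp hp'
        have h3 := mem_posF.1 (hmemG p').1
        refine h2 p _ h3.2.1 _ h3.2.2.1 ?_
        intro he
        apply hne
        apply Subtype.ext
        apply hμ2 i hp hp'
        rw [hrow1, hrow1]
        have he' : p'.1.2 = p.1.2 := he
        rw [he'])
    rw [Set.Finite.coe_toFinset, hRi] at h3
    exact h3
  have hRS : Disjoint R S := by
    rw [Set.disjoint_left]
    rintro _ ⟨x, hx, y, hy, rfl⟩ h3
    exact (hz x hx y hy).2 h3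
  have hne : Nonempty α := ⟨z (0, 0)⟩
  obtain ⟨C, ℓ, hC, hℓ, hℓi, hfinal⟩ := hb.side row Q hQP hQN hQd μ (fun _ => xp)
    (by
      intro i p _
      refine ⟨hxX p, c p, ?_, hxc p⟩
      have h3 : (c p).1 ≤ (c p).1 := le_refl _
      have h4 := hL4 p (c p).1 h3 (by omega)
      have h5 : c p ∈ (Q (row p) : Set (ℕ × ℕ)) := by
        rw [hQ]
        exact h4
      exact h5)
    (by
      intro i p hp p' hp' he
      apply Subtype.ext
      apply hμ3 i hp hp'
      exact congrArg Subtype.val he)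
    (fun _ => R) (fun _ => hRS) hbase
  -- the uncovered trees
  have hA : ∀ y < k, ((0, y) : ℕ × ℕ) ∈ colF k := fun y hy => mem_colF.2 ⟨hk, by omega⟩
  have hBm : ∀ x < k, ((x, k) : ℕ × ℕ) ∈ colF k := fun x hx => mem_colF.2 ⟨hx, le_refl _⟩
  obtain ⟨a, ha⟩ : ∃ a : ℕ → α, ∀ y (hy : y < k), a y = ℓ ⟨(0, y), hA y hy⟩ := by
    refine ⟨fun y => if hy : y < k then ℓ ⟨(0, y), hA y hy⟩ else z (0, 0), ?_⟩
    intro y hy
    simp only [dif_pos hy]
  obtain ⟨b, hb'⟩ : ∃ b : ℕ → α, ∀ x (hx : x < k), b x = ℓ ⟨(x, k), hBm x hx⟩ := by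
    refine ⟨fun x => if hx : x < k then ℓ ⟨(x, k), hBm x hx⟩ else z (0, 0), ?_⟩
    intro x hx
    simp only [dif_pos hx]
  have hunc : ∀ i : Cond k, ∀ u : ↥(colF k), u ∉ row '' μ i ↔
      ((u.1.2 = k ∧ u.1.1 ∉ i.1.2) ∨ (u.1.1 = 0 ∧ u.1.2 < k ∧ u.1.2 ∈ i.1.1)) := by
    intro i u
    obtain ⟨⟨x, y⟩, hu⟩ := u
    have hu' := mem_colF.1 hu
    simp only
    have hsrc : ∀ y ∈ i.1.1, y < k → ((0, 0, y) : ℕ × ℕ × ℕ) ∈ μ₀ i := by
      intro y hy hyk
      have h3 : ((0, y) : ℕ × ℕ) ∈ rowN '' μ₀ i := by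
        rw [hμ4 i _ (mem_rowF.2 ⟨by omega, hyk⟩)]
        exact fun _ => hy
      obtain ⟨⟨t, x', y'⟩, hp, hpe⟩ := h3
      have hp1 : (t, x', y') ∈ posF k := hμ1 i hp
      have h4 := mem_posF.1 hp1
      unfold rowN at hpe
      simp only at hpe
      split_ifs at hpe with h5
      · rw [Prod.mk.injEq] at hpe
        obtain ⟨_, rfl⟩ := hpe
        have h6 := h4.2.2.2.1 h5
        subst h5
        subst h6
        exact hp
      · rw [Prod.mk.injEq] at hpe
        omega
    constructor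
    · intro h3
      by_contra hcon
      push Not at hcon
      obtain ⟨h4, h5⟩ := hcon
      have h6 : ((x, y) : ℕ × ℕ) ∈ colN '' μ₀ i := by
        rw [hμ5 i _ hu]
        exact h4
      obtain ⟨p, hp, hpe⟩ := h6
      have hp1 : p ∈ posF k := hμ1 i hp
      by_cases hp0 : p.1 = 0
      · obtain ⟨t, x', y'⟩ := p
        simp only at hp0
        subst hp0
        have h7 := mem_posF.1 hp1
        unfold colN at hpe
        simp only [if_true, Prod.mk.injEq] at hpe
        obtain ⟨h8, h9⟩ := hpe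
        have h10 : ((0, y') : ℕ × ℕ) ∈ rowN '' μ₀ i := ⟨(0, x', y'), hp, by simp [rowN]⟩
        rw [hμ4 i _ (mem_rowF.2 ⟨by omega, h7.2.2.1⟩)] at h10
        have h11 := h10 rfl
        simp only at h11
        rw [h9] at h11
        exact h5 h8.symm (by omega) h11
      · exact h3 ⟨⟨p, Finset.mem_filter.2 ⟨hp1, hp0⟩⟩, hp, Subtype.ext hpe⟩
    · rintro (⟨h3, h4⟩ | ⟨h3, h4, h5⟩) ⟨p, hp, hpe⟩
      · have h6 : ((x, y) : ℕ × ℕ) ∈ colN '' μ₀ i := ⟨p.1, hp, congrArg Subtype.val hpe⟩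
        rw [hμ5 i _ hu] at h6
        exact h4 (h6 h3)
      · have h6 := hsrc y h5 h4
        have h7 : colN p.1 = (x, y) := congrArg Subtype.val hpe
        have h8 : colN (0, 0, y) = (x, y) := by
          unfold colN
          simp only [if_true, h3]
        have h9 := hμ3 i hp h6 (h7.trans h8.symm)
        exact (hmemG p).2 (by rw [h9])
  -- the uniform minor
  refine uniform_minor k (R ∪ C) a b ?_ ?_ ?_ ?_ ?_ ?_
  · intro i hi j hj hij
    have hi' : i < k := hi
    have hj' : j < k := hj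
    rw [ha i hi', ha j hj'] at hij
    have h3 := congrArg Subtype.val (hℓi hij)
    simp only [Prod.mk.injEq, true_and] at h3
    exact h3
  · intro i hi j hj hij
    have hi' : i < k := hi
    have hj' : j < k := hj
    rw [hb' i hi', hb' j hj'] at hij
    have h3 := congrArg Subtype.val (hℓi hij)
    simp only [Prod.mk.injEq, and_true] at h3
    exact h3
  · intro i hi j hj hij
    rw [ha i hi, hb' j hj] at hij
    have h3 := congrArg Subtype.val (hℓi hij)
    simp only [Prod.mk.injEq] at h3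
    omega
  · rintro i hi (h3 | h3)
    · rw [ha i hi] at h3
      exact Set.disjoint_left.1 hRS h3 (hℓ _).1
    · rw [ha i hi] at h3
      exact (hℓ _).2 h3
  · rintro i hi (h3 | h3)
    · rw [hb' i hi] at h3
      exact Set.disjoint_left.1 hRS h3 (hℓ _).1
    · rw [hb' i hi] at h3
      exact (hℓ _).2 h3
  · intro I B hI hB hIB
    have hcond : (I, (Finset.range k) \ B) ∈ condF k := by
      refine Finset.mem_filter.2 ⟨Finset.mem_product.2 ⟨Finset.mem_powerset.2 ?_,
        Finset.mem_powerset.2 Finset.sdiff_subset⟩, ?_⟩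
      · intro x hx
        exact Finset.mem_range.2 (hI x hx)
      · have hBs : B ⊆ Finset.range k := fun x hx => Finset.mem_range.2 (hB x hx)
        simp only
        rw [Finset.card_sdiff_of_subset hBs, Finset.card_range]
        omega
    have h3 := hfinal ⟨_, hcond⟩
    have e : ℓ '' {u | u ∉ row '' μ ⟨(I, (Finset.range k) \ B), hcond⟩} =
        a '' (I : Set ℕ) ∪ b '' (B : Set ℕ) := by
      apply Subset.antisymm
      · rintro _ ⟨u, hu, rfl⟩
        have hu2 : u ∉ row '' μ ⟨(I, (Finset.range k) \ B), hcond⟩ := hu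
        rw [hunc] at hu2
        obtain ⟨⟨x, y⟩, hux⟩ := u
        have hu' := mem_colF.1 hux
        simp only at hu2
        rcases hu2 with ⟨h4, h5⟩ | ⟨h4, h5, h6⟩
        · right
          subst h4
          have h6 : x ∈ B := by
            by_contra h7
            exact h5 (Finset.mem_sdiff.2 ⟨Finset.mem_range.2 hu'.1, h7⟩)
          exact ⟨x, h6, hb' x hu'.1⟩
        · left
          subst h4
          exact ⟨y, h6, ha y h5⟩
      · rintro _ (⟨y, hy, rfl⟩ | ⟨x, hx, rfl⟩)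
        · have hy' : y ∈ I := hy
          rw [ha y (hI y hy')]
          refine ⟨_, ?_, rfl⟩
          change _ ∉ row '' μ ⟨(I, (Finset.range k) \ B), hcond⟩
          rw [hunc]
          exact Or.inr ⟨rfl, hI y hy', hy'⟩
        · have hx' : x ∈ B := hx
          rw [hb' x (hB x hx')]
          refine ⟨_, ?_, rfl⟩
          change _ ∉ row '' μ ⟨(I, (Finset.range k) \ B), hcond⟩
          rw [hunc]
          refine Or.inl ⟨rfl, ?_⟩
          simp only [Finset.mem_sdiff, not_and, not_not]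
          exact fun _ => hx'
    rw [e, ← union_assoc] at h3
    exact h3

end Gad
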