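import Pool.Agent.Helper77.GL.FormA

/-!
# Gadget lemma, form A: legs in cells of a board
-/

open Set
open scoped Matroid

namespace Gad

open BIC BIC.Net

variable {α V : Type*}

/-- Gadget index and leg index of a position. -/
lemma pos_index {k : ℕ} (p : PosG k) : p.1.2.1 * k + p.1.2.2 < k * k ∧ p.1.1 - 1 < 3 := by
  obtain ⟨⟨t, x, y⟩, hp⟩ := p
  obtain ⟨h1, h0⟩ := Finset.mem_filter.1 hp
  rw [mem_posF] at h1
  simp only at h0 ⊢
  have : (x + 1) * k ≤ k * k := Nat.mul_le_mul_right _ h1.2.1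
  have e : (x + 1) * k = x * k + k := by ring
  omega

lemma index_inj {k x y x' y' : ℕ} (hy : y < k) (hy' : y' < k) (h : x * k + y = x' * k + y') :
    x = x' ∧ y = y' := by
  have hx : x = x' := by
    rcases Nat.lt_trichotomy x x' with h1 | h1 | h1
    · have : (x + 1) * k ≤ x' * k := Nat.mul_le_mul_right _ h1
      have e : (x + 1) * k = x * k + k := by ring
      omega
    · exact h1
    · have : (x' + 1) * k ≤ x * k := Nat.mul_le_mul_right _ h1
      have e : (x' + 1) * k = x' * k + k := by ring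
      omega
  subst hx
  exact ⟨rfl, by omega⟩

/-- Form A on a board. -/
theorem formA {k : ℕ} (hk : 1 ≤ k) {M : Matroid α} [M.Finite] {S : Set α}
    {ends : α → Sym2 V} {ψ : V → α} {N : ℕ} {W : ℕ × ℕ → Set V}
    (hb : ∀ X : Set α, (∀ c : ℕ × ℕ, c.1 < N → c.2 < N → (X ∩ ψ '' W c).Subsingleton) →
      Board (Cond k) M S ends ψ N X W)
    (hF : M.IsBase (range ψ)) (z : Fin (k * k) → α) (hz : ∀ g, z g ∈ M.E ∧ z g ∉ S)
    (c : Fin (k * k) → Fin 3 → ℕ × ℕ)
    (hm : ∀ g j, DA k ≤ (c g j).1 ∧ DA k ≤ (c g j).2 ∧ (c g j).1 + DA k ≤ N ∧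
      (c g j).2 + DA k ≤ N)
    (hfar : ∀ g j g' j', (g, j) ≠ (g', j') → (c g j).1 + DA k ≤ (c g' j').1 ∨
      (c g' j').1 + DA k ≤ (c g j).1 ∨ (c g j).2 + DA k ≤ (c g' j').2 ∨
      (c g' j').2 + DA k ≤ (c g j).2)
    (hleg : ∀ g j, z g ∉ M.closure (range ψ \ ψ '' W (c g j)))
    (hpriv : ∀ g j g', g' ≠ g → z g' ∈ M.closure (range ψ \ ψ '' W (c g j))) :
    HasUniformMinor M k := by
  classical
  have hD : 2 * ht (KA k) (3 * k * k) ≤ N := by
    have h0 := hm ⟨0, Nat.mul_pos hk hk⟩ 0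
    have : ht (KA k) (3 * k * k) ≤ DA k := by
      unfold DA far
      omega
    omega
  have hDpos : 1 ≤ DA k := by
    unfold DA far
    omega
  have hinb : ∀ g j, (c g j).1 < N ∧ (c g j).2 < N := by
    intro g j
    have := hm g j
    omega
  have hcinj : ∀ g j g' j', c g j = c g' j' → (g, j) = (g', j') := by
    intro g j g' j' h
    by_contra hne
    have := hfar g j g' j' hne
    rw [h] at this
    omega
  have hport : ∀ g j, ∃ x ∈ ψ '' W (c g j), z g ∉ M.closure (range ψ \ {x}) := by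
    intro g j
    obtain ⟨x, hx, hx'⟩ := exists_port (z := z g) hF.indep (hleg g j)
      (by rw [hF.closure_eq]; exact (hz g).1)
    exact ⟨x, hx.1, hx'⟩
  choose x hxc hx1 using hport
  have hx2 : ∀ g j g', g' ≠ g → z g' ∈ M.closure (range ψ \ {x g j}) := by
    intro g j g' hne
    refine M.closure_subset_closure ?_ (hpriv g j g' hne)
    intro e he
    refine ⟨he.1, ?_⟩
    rintro rfl
    exact he.2 (hxc g j)
  have hb0 := hb ∅ (by
    intro b _ _
    rw [empty_inter]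
    exact subsingleton_empty)
  have huniq : ∀ e b b', b.1 < N → b.2 < N → b'.1 < N → b'.2 < N → e ∈ ψ '' W b →
      e ∈ ψ '' W b' → b = b' := by
    intro e b b' h1 h2 h3 h4 h5 h6
    by_contra hne
    exact Set.disjoint_left.1 (ins_disj (S := S) (ends := ends) (hb0.disj b b' h1 h2 h3 h4 hne))
      ((hb0.mg b h1 h2).1 h5) ((hb0.mg b' h3 h4).1 h6)
  set X : Set α := {e | ∃ g j, e = x g j} with hX
  have hbX := hb X (by
    rintro b h1 h2 e ⟨⟨g, j, rfl⟩, he⟩ e' ⟨⟨g', j', rfl⟩, he'⟩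
    have h3 := huniq _ _ _ (hinb g j).1 (hinb g j).2 h1 h2 (hxc g j) he
    have h4 := huniq _ _ _ (hinb g' j').1 (hinb g' j').2 h1 h2 (hxc g' j') he'
    have h5 := hcinj g j g' j' (h3.trans h4.symm)
    rw [Prod.mk.injEq] at h5
    rw [h5.1, h5.2])
  -- reindexing
  set gi : PosG k → Fin (k * k) := fun p => ⟨_, (pos_index p).1⟩ with hgi
  set li : PosG k → Fin 3 := fun p => ⟨_, (pos_index p).2⟩ with hli
  have hkk : 0 < k * k := Nat.mul_pos hk hk
  set zz : ℕ × ℕ → α := fun q => if h : q.1 * k + q.2 < k * k then z ⟨_, h⟩ else z ⟨0, hkk⟩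
    with hzz
  have hzeq : ∀ p : PosG k, zz p.1.2 = z (gi p) := by
    intro p
    simp only [hzz, hgi]
    rw [dif_pos (pos_index p).1]
  refine formA_core hk hbX hF hD zz ?_ (fun p => x (gi p) (li p)) (fun p => c (gi p) (li p))
    (fun p => ⟨_, _, rfl⟩) (fun p => hxc _ _) (fun p => hm _ _) ?_ ?_ ?_
  · intro a _ b _
    simp only [hzz]
    split_ifs
    · exact hz _
    · exact hz _
  · intro p p' hpp
    refine hfar _ _ _ _ ?_
    intro h
    apply hpp
    rw [Prod.mk.injEq] at h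
    simp only [hgi, hli, Fin.mk.injEq] at h
    obtain ⟨⟨t, a, b⟩, hp⟩ := p
    obtain ⟨⟨t', a', b'⟩, hp'⟩ := p'
    obtain ⟨h1, h0⟩ := Finset.mem_filter.1 hp
    obtain ⟨h1', h0'⟩ := Finset.mem_filter.1 hp'
    rw [mem_posF] at h1 h1'
    simp only at h0 h0' h
    obtain ⟨h2, h3⟩ := index_inj h1.2.2.1 h1'.2.2.1 h.1
    apply Subtype.ext
    simp only [Prod.mk.injEq]
    omega
  · intro p
    rw [hzeq]
    exact hx1 _ _
  · intro p a ha b hb' hne
    have hab : a * k + b < k * k := by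
      have : (a + 1) * k ≤ k * k := Nat.mul_le_mul_right _ ha
      have e : (a + 1) * k = a * k + k := by ring
      omega
    have h1 : zz (a, b) = z ⟨a * k + b, hab⟩ := by
      simp only [hzz]
      rw [dif_pos hab]
    rw [h1]
    refine hx2 _ _ _ ?_
    intro h
    apply hne
    simp only [hgi, Fin.mk.injEq] at h
    obtain ⟨⟨t, a', b''⟩, hp⟩ := p
    obtain ⟨h1, h0⟩ := Finset.mem_filter.1 hp
    rw [mem_posF] at h1
    simp only at h ⊢
    obtain ⟨h2, h3⟩ := index_inj hb' h1.2.2.1 h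
    rw [h2, h3]

end Gad
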