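import Pool.Agent.Helper77.GL.FormA2
import Pool.Agent.Helper34.BIC.A2

/-!
# Gadget lemma, form A, on a grid
-/

open Set
open scoped Matroid

namespace Gad

open BIC BIC.Net

variable {α : Type*}

/-- The board of a grid, with explicit cells. -/
theorem board_of_grid {ι : Type} [Fintype ι] {M : Matroid α} {S : Set α} (hS : S ⊆ M.E)
    {V : Type} [Finite V] {G : SimpleGraph V} {vt : ℕ → ℕ → V} {ap : V}
    {n h N : ℕ} (hG : GridLike n G vt ap) (hh : 1 ≤ h) (hn : n = 2 * h * N) (hN : 1 ≤ N)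
    (hι : Fintype.card ι < 2 * h) {φ : Sym2 V → α} {ends : α → Sym2 V}
    (hφ : ∀ x ∈ G.edgeSet, φ x ∈ S ∧ ends (φ x) = x) (hB : Bic M S ends) :
    ∃ ψ : V → α, Function.Injective ψ ∧ (∀ v, ψ v ∈ S ∧ ends (ψ v) = s(v, nxt vt h N v)) ∧
      (∀ X : Set α, (∀ c : ℕ × ℕ, c.1 < N → c.2 < N → (X ∩ ψ '' Cell vt h c).Subsingleton) →
        Board ι M S ends ψ N X (Cell vt h)) ∧ M.IsBasis (range ψ) S := by
  classical
  have hVne : Nonempty V := ⟨ap⟩
  set ψ : V → α := fun v => φ s(v, nxt vt h N v) with hψ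
  have hedge : ∀ v, s(v, nxt vt h N v) ∈ G.edgeSet := fun v => adj_nxt hG hh hn v
  have hends : ∀ v, ψ v ∈ S ∧ ends (ψ v) = s(v, nxt vt h N v) := fun v => hφ _ (hedge v)
  have hpsi : ∀ v, ψ v ∈ S ∧ v ∈ ends (ψ v) := fun v =>
    ⟨(hends v).1, by rw [(hends v).2]; simp⟩
  have hψi : Function.Injective ψ := by
    intro v v' hvv
    have h1 := congrArg ends hvv
    rw [(hends v).2, (hends v').2] at h1
    rcases Sym2.eq_iff.1 h1 with ⟨h2, _⟩ | ⟨h2, h3⟩
    · exact h2
    · exfalso
      apply nxt_nxt hG hh hn hN v'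
      rw [← h2, h3]
  have hlad : ∀ y j, y < h * N → j < N → ∀ X : Set α, (X ∩ ψ '' Lad vt h y j).Subsingleton →
      Mg ι M S ends (Lad vt h y j) (ψ '' Lad vt h y j) (X ∩ ψ '' Lad vt h y j) := by
    intro y j hy hj X hX
    refine Mg.cycle (L := 4 * h) (by omega) (cyc vt h y j) (cyc_per h y j) ?_ rfl hψi.injOn ?_ hX
    · intro s hs t ht hst
      have := (cyc_inj hG hh hn hy hj hy hj hst).2.2
      rwa [Nat.mod_eq_of_lt hs, Nat.mod_eq_of_lt ht] at this
    · intro t
      refine ⟨(hends _).1, ?_⟩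
      rw [(hends _).2, nxt_cyc hG hh hn hy hj]
  have hcell : ∀ X : Set α, (∀ c : ℕ × ℕ, c.1 < N → c.2 < N → (X ∩ ψ '' Cell vt h c).Subsingleton) →
      ∀ c : ℕ × ℕ, c.1 < N → c.2 < N →
      Mg ι M S ends (Cell vt h c) (ψ '' Cell vt h c) (X ∩ ψ '' Cell vt h c) := by
    intro X hX c hc1 hc2
    have hsub : ∀ t < h, Lad vt h (h * c.1 + t) c.2 ⊆ Cell vt h c := by
      intro t ht
      unfold Cell
      exact subset_biUnion_of_mem (u := fun t => Lad vt h (h * c.1 + t) c.2)
        (show t ∈ (Finset.range h : Set ℕ) from Finset.mem_coe.2 (Finset.mem_range.2 ht))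
    have hl : ∀ t < h, Mg ι M S ends (Lad vt h (h * c.1 + t) c.2)
        (ψ '' Lad vt h (h * c.1 + t) c.2) (X ∩ ψ '' Lad vt h (h * c.1 + t) c.2) := by
      intro t ht
      refine hlad _ _ (hY_lt hc1 ht) hc2 X ((hX c hc1 hc2).anti ?_)
      exact inter_subset_inter_right _ (image_mono (hsub t ht))
    have hPQ : ∀ T, 1 ≤ T → T ≤ h →
        PQ ι M S ends ψ X (fun t => Lad vt h (h * c.1 + t) c.2) (Finset.range T) := by
      intro T hT
      induction T, hT using Nat.le_induction with
      | base =>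
        intro h1
        unfold PQ
        have : ⋃ t ∈ Finset.range 1, Lad vt h (h * c.1 + t) c.2 = Lad vt h (h * c.1 + 0) c.2 := by
          simp
        rw [this]
        exact hl 0 (by omega)
      | succ T hT ih =>
        intro h1
        rw [Finset.range_add_one]
        refine PQ.add hB (fun c _ => Set.toFinite _) (ih (by omega)) (c := T) (c' := T - 1)
          (Set.toFinite _) (hl T (by omega)) (Finset.mem_range.2 (by omega)) ?_ ?_
        · intro b hb hbT
          have hb' := Finset.mem_range.1 hb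
          refine Lad_disj hG hh hn (hY_lt hc1 (by omega)) hc2 (hY_lt hc1 (by omega)) hc2 ?_
          rintro ⟨e, _⟩
          omega
        · have e : h * c.1 + T = (h * c.1 + (T - 1)) + 1 := by omega
          rw [e]
          set y := h * c.1 + (T - 1) with hy
          have hyN : y + 1 < h * N := by
            have := hY_lt (h := h) hc1 (show T < h by omega)
            omega
          have hr2 : 2 * (y + 1) + 1 < n := row_lt hn hyN
          refine rung_of hφ hι (fun s => vt (2 * y + 1) (2 * h * c.2 + s))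
            (fun s => vt (2 * y + 1 + 1) (2 * h * c.2 + s)) ?_ ?_ ?_ ?_ ?_
          · intro s hs; exact vt_mem_Lad hh (Or.inr rfl) hs
          · intro s hs; exact vt_mem_Lad hh (Or.inl (by ring)) hs
          · intro s hs; exact hG.adjv (by omega) (col_lt hn hc2 hs)
          · intro s hs s' hs' hss
            have := (hG.inj (by omega) (col_lt hn hc2 hs) (by omega) (col_lt hn hc2 hs') hss).2
            omega
          · intro s hs s' hs' hss
            have := (hG.inj (by omega) (col_lt hn hc2 hs) (by omega) (col_lt hn hc2 hs') hss).1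
            omega
    exact hPQ h hh (le_refl _)
  have hrange : ∀ {Y a : ℕ}, Y < N → a < 2 * h → 2 * h * Y + a < n := fun hY ha =>
    col_lt hn hY ha
  refine ⟨ψ, hψi, hends, ?_, ?_⟩
  · intro X hX
    refine ⟨hB, hpsi, fun c => Set.toFinite _, Cell_disj hG hh hn, hcell X hX, ?_, ?_⟩
    · intro l d hl hd
      have e1 : 2 * h * l + (2 * h - 1) + 1 = 2 * h * (l + 1) + 0 := by
        rw [Nat.mul_succ]; omega
      have hlt : 2 * h * (l + 1) + 0 < n := hrange hl (by omega)
      refine rung_of hφ hι (fun s => vt (2 * h * l + (2 * h - 1)) (2 * h * d + s))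
        (fun s => vt (2 * h * l + (2 * h - 1) + 1) (2 * h * d + s)) ?_ ?_ ?_ ?_ ?_
      · intro s hs; exact vt_mem_Cell hh (by omega) hs
      · intro s hs
        rw [e1]
        exact vt_mem_Cell hh (by omega) hs
      · intro s hs
        exact hG.adjv (by omega) (hrange hd hs)
      · intro s hs s' hs' hss
        have := (hG.inj (by omega) (hrange hd hs) (by omega) (hrange hd hs') hss).2
        omega
      · intro s hs s' hs' hss
        have := (hG.inj (by omega) (hrange hd hs) (by omega) (hrange hd hs') hss).1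
        omega
    · intro l d hl hd
      have e1 : 2 * h * d + (2 * h - 1) + 1 = 2 * h * (d + 1) + 0 := by
        rw [Nat.mul_succ]; omega
      have hlt : 2 * h * (d + 1) + 0 < n := hrange hd (by omega)
      refine rung_of hφ hι (fun s => vt (2 * h * l + s) (2 * h * d + (2 * h - 1)))
        (fun s => vt (2 * h * l + s) (2 * h * d + (2 * h - 1) + 1)) ?_ ?_ ?_ ?_ ?_
      · intro s hs; exact vt_mem_Cell hh hs (by omega)
      · intro s hs
        rw [e1]
        exact vt_mem_Cell hh hs (by omega)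
      · intro s hs
        exact hG.adjh (hrange hl hs) (by omega)
      · intro s hs s' hs' hss
        have := (hG.inj (hrange hl hs) (by omega) (hrange hl hs') (by omega) hss).1
        omega
      · intro s hs s' hs' hss
        have := (hG.inj (hrange hl hs) (by omega) (hrange hl hs') (by omega) hss).2
        omega
  · have hsubS : range ψ ⊆ S := by
      rintro _ ⟨v, rfl⟩
      exact (hpsi v).1
    have hfin : (range ψ).Finite := Set.finite_range ψ
    have hind : M.Indep (range ψ) := by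
      refine hB.ind (range ψ) (Function.invFun ψ) hsubS ?_ ?_
      · rintro _ ⟨v, rfl⟩ _ ⟨v', rfl⟩ hvv
        rw [Function.leftInverse_invFun hψi v, Function.leftInverse_invFun hψi v'] at hvv
        rw [hvv]
      · rintro _ ⟨v, rfl⟩
        rw [Function.leftInverse_invFun hψi v]
        exact (hpsi v).2
    refine hind.isBasis_of_eRk_ge hfin hsubS ?_ hS
    rw [hind.eRk_eq_encard]
    have h1 := hB.rk (univ : Set (V))
    have h2 : S ⊆ ins S ends univ := fun e he => ⟨he, fun v _ => mem_univ v⟩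
    have h3 : (range ψ).encard = (univ : Set (V)).encard := by
      rw [← image_univ, hψi.injOn.encard_image]
    rw [h3]
    exact (M.eRk_mono h2).trans h1

section grid

variable {V : Type} {vt : ℕ → ℕ → V} {n h N : ℕ} {G : SimpleGraph V} {ap : V}

lemma mem_Cell_iff (hh : 1 ≤ h) {c : ℕ × ℕ} {v : V} : v ∈ Cell vt h c ↔
    ∃ a s, a < 2 * h ∧ s < 2 * h ∧ v = vt (2 * h * c.1 + a) (2 * h * c.2 + s) := by
  constructor
  · intro hv
    unfold Cell at hv
    obtain ⟨t, ht, hv⟩ := mem_iUnion₂.1 hv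
    have ht' := Finset.mem_range.1 ht
    obtain ⟨i, hi, rfl⟩ := hv
    have e : 2 * (h * c.1 + t) = 2 * h * c.1 + 2 * t := by ring
    rcases cyc_cases (vt := vt) hh (y := h * c.1 + t) (j := c.2) (i := i) with
      ⟨h1, h2⟩ | ⟨h1, h1', h2⟩
    · refine ⟨2 * t, i % (4 * h), by omega, h1, ?_⟩
      rw [h2, e]
    · refine ⟨2 * t + 1, 4 * h - 1 - i % (4 * h), by omega, by omega, ?_⟩
      rw [h2, e, add_assoc]
  · rintro ⟨a, s, ha, hs, rfl⟩
    exact vt_mem_Cell hh ha hs

/-- The vertices of the grid at distance at most `r` from `(a, b)` (both coordinates). -/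
def box (vt : ℕ → ℕ → V) (a : ℕ × ℕ) (r : ℕ) : Set V :=
  {v | ∃ i j, a.1 ≤ i + r ∧ i ≤ a.1 + r ∧ a.2 ≤ j + r ∧ j ≤ a.2 + r ∧ v = vt i j}

/-- The cell of a grid point. -/
def cellOf (h i j : ℕ) : ℕ × ℕ := (i / (2 * h), j / (2 * h))

lemma vt_mem_cellOf (hh : 1 ≤ h) (i j : ℕ) : vt i j ∈ Cell vt h (cellOf h i j) := by
  rw [mem_Cell_iff hh]
  refine ⟨i % (2 * h), j % (2 * h), Nat.mod_lt _ (by omega), Nat.mod_lt _ (by omega), ?_⟩
  unfold cellOf
  simp only
  rw [Nat.div_add_mod, Nat.div_add_mod]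

lemma div_lt_of (hn : n = 2 * h * N) (hh : 1 ≤ h) {i : ℕ} (hi : i < n) : i / (2 * h) < N := by
  rw [Nat.div_lt_iff_lt_mul (by omega), mul_comm]
  omega

lemma nxt_notMem [Finite V] {ι : Type} [Fintype ι] {M : Matroid α} {S : Set α}
    {ends : α → Sym2 V} {ψ : V → α}
    (hG : GridLike n G vt ap) (hh : 1 ≤ h) (hn : n = 2 * h * N)
    (hends : ∀ v, ψ v ∈ S ∧ ends (ψ v) = s(v, nxt vt h N v))
    (hb : Board ι M S ends ψ N ∅ (Cell vt h)) {c : ℕ × ℕ} (hc1 : c.1 < N) (hc2 : c.2 < N)
    (hc0 : c ≠ (0, 0)) {v : V} (hv : v ∉ Cell vt h c) : nxt vt h N v ∉ Cell vt h c := by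
  intro hv'
  rcases exists_cyc hG hh hn v with ⟨_, h0⟩ | ⟨y, j, i, hy, hj, hi, rfl⟩
  · rw [nxt_none hh h0] at hv'
    have h1 := vt_mem_cellOf (vt := vt) hh 0 0
    have hNpos : 0 < N := by omega
    have e0 : cellOf h 0 0 = (0, 0) := by unfold cellOf; simp
    rw [e0] at h1
    exact Set.disjoint_left.1 (hb.disj c (0, 0) hc1 hc2 hNpos hNpos hc0) hv' h1
  · set c' : ℕ × ℕ := (y / h, j) with hc'
    have hy' : y / h < N := by
      rw [Nat.div_lt_iff_lt_mul (by omega), mul_comm]
      exact hy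
    have hmem : cyc vt h y j i ∈ Cell vt h c' := by
      unfold Cell
      refine mem_iUnion₂.2 ⟨y % h, Finset.mem_range.2 (Nat.mod_lt _ (by omega)), ?_⟩
      simp only [hc']
      rw [Nat.div_add_mod]
      exact mem_Lad_of_cyc hh
    have h1 := (hb.mg c' hy' hj).1 (mem_image_of_mem ψ hmem)
    have h2 := h1.2 (nxt vt h N (cyc vt h y j i)) (by rw [(hends _).2]; simp)
    by_cases hcc : c = c'
    · exact hv (hcc ▸ hmem)
    · exact Set.disjoint_left.1 (hb.disj c c' hc1 hc2 hy' hj hcc) hv' h2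

/-- The distance used in form A on a grid. -/
def DG (k r : ℕ) : ℕ := 2 * 4 ^ k * (DA k + 1) + 2 * r + 2

theorem formA_span {k r : ℕ} (hk : 1 ≤ k) {M : Matroid α} [M.Finite] {S : Set α} [Finite V]
    (hG : GridLike n G vt ap) (hn : n = 2 * 4 ^ k * N) {φ : Sym2 V → α} {ends : α → Sym2 V}
    (hφ : ∀ x ∈ G.edgeSet, φ x ∈ S ∧ ends (φ x) = x) (hB : Bic M S ends)
    (hS : M.Spanning S)
    (z : Fin (k * k) → α) (hz : ∀ g, z g ∈ M.E ∧ z g ∉ S) (c : Fin (k * k) → Fin 3 → ℕ × ℕ)
    (hm : ∀ g j, DG k r ≤ (c g j).1 ∧ DG k r ≤ (c g j).2 ∧ (c g j).1 + DG k r ≤ n ∧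
      (c g j).2 + DG k r ≤ n)
    (hfar : ∀ g j g' j', (g, j) ≠ (g', j') → (c g j).1 + DG k r ≤ (c g' j').1 ∨
      (c g' j').1 + DG k r ≤ (c g j).1 ∨ (c g j).2 + DG k r ≤ (c g' j').2 ∨
      (c g' j').2 + DG k r ≤ (c g j).2)
    (hleg : ∀ g j, z g ∉ M.closure (ins S ends (box vt (c g j) r)ᶜ))
    (hpriv : ∀ g j g', g' ≠ g →
      z g' ∈ M.closure (ins S ends (box vt (c g j) (r + 2 * 4 ^ k))ᶜ)) :
    HasUniformMinor M k := by
  classical
  set h := 4 ^ k with hh'
  have hh : 1 ≤ h := Nat.one_le_pow _ _ (by norm_num)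
  have hkk : 0 < k * k := Nat.mul_pos hk hk
  have hDA : 1 ≤ DA k := by unfold DA far; omega
  have hDG : DG k r = 2 * h * DA k + 2 * h + 2 * r + 2 := by
    unfold DG
    rw [← hh']
    ring
  have hN : 1 ≤ N := by
    rcases Nat.eq_zero_or_pos N with h0 | h0
    · rw [h0, mul_zero] at hn
      have := hm ⟨0, hkk⟩ 0
      omega
    · exact h0
  have hι : Fintype.card (Cond k) < 2 * h := by
    have := card_Cond k
    omega
  obtain ⟨ψ, hψi, hends, hboard, hbasis⟩ := board_of_grid (ι := Cond k) hS.subset_ground hG hh hn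
    hN hι hφ hB
  have hF : M.IsBase (range ψ) := hbasis.isBase_of_spanning hS
  have hb0 := hboard ∅ (by
    intro b _ _
    rw [empty_inter]
    exact subsingleton_empty)
  have hnn := fun {c : ℕ × ℕ} (hc1 : c.1 < N) (hc2 : c.2 < N) (hc0 : c ≠ (0, 0)) {v : V}
    (hv : v ∉ Cell vt h c) => nxt_notMem hG hh hn hends hb0 hc1 hc2 hc0 hv
  -- the closure of the outside of a cell
  have hout : ∀ b : ℕ × ℕ, b.1 < N → b.2 < N → b ≠ (0, 0) →
      ins S ends (Cell vt h b)ᶜ ⊆ M.closure (range ψ \ ψ '' Cell vt h b) := by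
    intro b hb1 hb2 hb00
    have e : range ψ \ ψ '' Cell vt h b = ψ '' (Cell vt h b)ᶜ := by
      rw [← image_univ, ← image_sdiff hψi, compl_eq_univ_sdiff]
    rw [e]
    have hsub : ψ '' (Cell vt h b)ᶜ ⊆ ins S ends (Cell vt h b)ᶜ := by
      rintro _ ⟨v, hv, rfl⟩
      refine ⟨(hends v).1, ?_⟩
      intro w hw
      rw [(hends v).2] at hw
      rcases Sym2.mem_iff.1 hw with rfl | rfl
      · exact hv
      · exact hnn hb1 hb2 hb00 hv
    have hind : M.Indep (ψ '' (Cell vt h b)ᶜ) := hF.indep.subset (image_subset_range _ _)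
    have hbas : M.IsBasis (ψ '' (Cell vt h b)ᶜ) (ins S ends (Cell vt h b)ᶜ) := by
      refine hind.isBasis_of_eRk_ge (Set.toFinite _) hsub ?_ (fun e he => hB.sub he.1)
      rw [hind.eRk_eq_encard, hψi.injOn.encard_image]
      exact hB.rk _
    exact hbas.subset_closure
  -- the ports
  have hport : ∀ g j, ∃ i i', (c g j).1 ≤ i + r ∧ i ≤ (c g j).1 + r ∧ (c g j).2 ≤ i' + r ∧
      i' ≤ (c g j).2 + r ∧ z g ∉ M.closure (range ψ \ ψ '' Cell vt h (cellOf h i i')) := by
    intro g j
    have hmg := hm g j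
    set D : Set α := {e | ∃ i i', (c g j).1 ≤ i + r ∧ i ≤ (c g j).1 + r ∧ (c g j).2 ≤ i' + r ∧
      i' ≤ (c g j).2 + r ∧ e ∈ ψ '' Cell vt h (cellOf h i i')} with hD
    obtain ⟨x, ⟨hxD, _⟩, hx⟩ := exists_port (z := z g) (D := D) hF.indep (by
      intro hcon
      apply hleg g j
      refine M.closure_subset_closure ?_ hcon
      rintro _ ⟨⟨v, rfl⟩, hv⟩
      refine ⟨(hends v).1, ?_⟩
      intro w hw
      rw [(hends v).2] at hw
      rintro ⟨i, i', h1, h2, h3, h4, rfl⟩
      apply hv
      refine ⟨i, i', h1, h2, h3, h4, ?_⟩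
      refine mem_image_of_mem _ ?_
      rcases Sym2.mem_iff.1 hw with h5 | h5
      · rw [← h5]
        exact vt_mem_cellOf hh i i'
      · by_contra hcon2
        have hc0 : cellOf h i i' ≠ (0, 0) := by
          intro h6
          unfold cellOf at h6
          rw [Prod.mk.injEq] at h6
          have h7 : 2 * h ≤ i := by omega
          have := Nat.div_pos h7 (by omega)
          omega
        refine hnn (c := cellOf h i i') (div_lt_of hn hh (by omega)) (div_lt_of hn hh (by omega))
          hc0 hcon2 ?_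
        rw [← h5]
        exact vt_mem_cellOf hh i i') (by rw [hF.closure_eq]; exact (hz g).1)
    obtain ⟨i, i', h1, h2, h3, h4, hx2⟩ := hxD
    refine ⟨i, i', h1, h2, h3, h4, fun hcon => hx ?_⟩
    refine M.closure_subset_closure ?_ hcon
    intro e he
    refine ⟨he.1, ?_⟩
    rintro rfl
    exact he.2 hx2
  choose pi pj hp1 hp2 hp3 hp4 hp5 using hport
  have hdiv : ∀ i : ℕ, 2 * h * (i / (2 * h)) ≤ i ∧ i < 2 * h * (i / (2 * h)) + 2 * h := by
    intro i
    have h1 := Nat.div_add_mod i (2 * h)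
    have h2 := Nat.mod_lt i (show 0 < 2 * h by omega)
    omega
  have hlow : ∀ i D : ℕ, 2 * h * D ≤ i → D ≤ i / (2 * h) := by
    intro i D hD
    rw [Nat.le_div_iff_mul_le (by omega), mul_comm]
    exact hD
  have hup : ∀ i i' : ℕ, i + 2 * h * DA k + 2 * h ≤ i' → i / (2 * h) + DA k ≤ i' / (2 * h) := by
    intro i i' hD
    apply hlow
    have := hdiv i
    have e : 2 * h * (i / (2 * h) + DA k) = 2 * h * (i / (2 * h)) + 2 * h * DA k := by ring
    omega
  have hupn : ∀ i : ℕ, i + 2 * h * DA k + 2 * h ≤ n → i / (2 * h) + DA k ≤ N := by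
    intro i hD
    have h1 := hup i n hD
    rw [hn, Nat.mul_div_cancel_left _ (by omega)] at h1
    exact h1
  refine formA hk hboard hF z hz (fun g j => cellOf h (pi g j) (pj g j)) ?_ ?_ hp5 ?_
  · intro g j
    have h0 := hm g j
    have h1 := hp1 g j
    have h2 := hp2 g j
    have h3 := hp3 g j
    have h4 := hp4 g j
    unfold cellOf
    simp only
    exact ⟨hlow _ _ (by omega), hlow _ _ (by omega), hupn _ (by omega), hupn _ (by omega)⟩
  · intro g j g' j' hne
    have h0 := hfar g j g' j' hne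
    have h1 := hp1 g j
    have h2 := hp2 g j
    have h3 := hp3 g j
    have h4 := hp4 g j
    have h1' := hp1 g' j'
    have h2' := hp2 g' j'
    have h3' := hp3 g' j'
    have h4' := hp4 g' j'
    unfold cellOf
    simp only
    rcases h0 with h0 | h0 | h0 | h0
    · exact Or.inl (hup _ _ (by omega))
    · exact Or.inr (Or.inl (hup _ _ (by omega)))
    · exact Or.inr (Or.inr (Or.inl (hup _ _ (by omega))))
    · exact Or.inr (Or.inr (Or.inr (hup _ _ (by omega))))
  · intro g j g' hne
    have h0 := hm g j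
    have h1 := hp1 g j
    have h2 := hp2 g j
    have h3 := hp3 g j
    have h4 := hp4 g j
    have hc1 : (cellOf h (pi g j) (pj g j)).1 < N := div_lt_of hn hh (by omega)
    have hc2 : (cellOf h (pi g j) (pj g j)).2 < N := div_lt_of hn hh (by omega)
    have hc0 : cellOf h (pi g j) (pj g j) ≠ (0, 0) := by
      intro h6
      unfold cellOf at h6
      rw [Prod.mk.injEq] at h6
      have h7 : 2 * h ≤ pi g j := by omega
      have := Nat.div_pos h7 (by omega)
      omega
    have h5 := hout _ hc1 hc2 hc0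
    have h6 : ins S ends (box vt (c g j) (r + 2 * 4 ^ k))ᶜ ⊆
        ins S ends (Cell vt h (cellOf h (pi g j) (pj g j)))ᶜ := by
      apply ins_mono
      apply compl_subset_compl.2
      intro v hv
      rw [mem_Cell_iff hh] at hv
      obtain ⟨a, s, ha, hs, rfl⟩ := hv
      unfold cellOf
      simp only
      have d1 := hdiv (pi g j)
      have d2 := hdiv (pj g j)
      exact ⟨_, _, by omega, by omega, by omega, by omega, rfl⟩
    exact M.closure_subset_closure_of_subset_closure (h6.trans h5) (hpriv g j g' hne)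

end grid

end Gad
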