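import Pool.Agent.Helper77.GL.Snake

/-!
# Lanes through far apart terminals
-/

open Set

namespace Gad

/-- Distance of `x` from the interval `[a, a + r]`. -/
def dst (r a x : ℕ) : ℕ := (a - x) + (x - (a + r))

/-- The tent function: the least `1`-Lipschitz function above the given plateaus. -/
def tent {T : Type*} (S : Finset T) (r : ℕ) (a w : T → ℕ) (x : ℕ) : ℕ :=
  S.sup (fun s => w s - dst r (a s) x)

lemma tent_lip {T : Type*} (S : Finset T) (r : ℕ) (a w : T → ℕ) (x : ℕ) :
    tent S r a w x ≤ tent S r a w (x + 1) + 1 ∧ tent S r a w (x + 1) ≤ tent S r a w x + 1 := by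
  constructor
  · refine Finset.sup_le ?_
    intro s hs
    have h1 : w s - dst r (a s) (x + 1) ≤ tent S r a w (x + 1) :=
      Finset.le_sup (f := fun s => w s - dst r (a s) (x + 1)) hs
    unfold dst at *
    omega
  · refine Finset.sup_le ?_
    intro s hs
    have h1 : w s - dst r (a s) x ≤ tent S r a w x :=
      Finset.le_sup (f := fun s => w s - dst r (a s) x) hs
    unfold dst at *
    omega

lemma tent_eq {T : Type*} {S : Finset T} {r : ℕ} {a w : T → ℕ} {s : T} (hs : s ∈ S) {x : ℕ}
    (h1 : a s ≤ x) (h2 : x ≤ a s + r) (h3 : ∀ s' ∈ S, s' ≠ s → w s' ≤ dst r (a s') x) :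
    tent S r a w x = w s := by
  apply le_antisymm
  · refine Finset.sup_le ?_
    intro s' hs'
    by_cases h : s' = s
    · subst h; omega
    · have := h3 s' hs' h
      omega
  · have h4 : w s - dst r (a s) x ≤ tent S r a w x :=
      Finset.le_sup (f := fun s => w s - dst r (a s) x) hs
    have h5 : dst r (a s) x = 0 := by unfold dst; omega
    omega

lemma tent_zero {T : Type*} {S : Finset T} {r : ℕ} {a w : T → ℕ} {x : ℕ}
    (h3 : ∀ s' ∈ S, w s' ≤ dst r (a s') x) : tent S r a w x = 0 := by
  have : tent S r a w x ≤ 0 := by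
    refine Finset.sup_le ?_
    intro s' hs'
    have := h3 s' hs'
    omega
  omega

/-- The needed height of a strip. -/
def ht (K m : ℕ) : ℕ := 4 * K * (m + 1)

/-- The needed distance. -/
def far (K m r : ℕ) : ℕ := ht K m + K + r + 1

theorem lanes {T : Type*} [Fintype T] {K r N m : ℕ} (hK : 1 ≤ K) (hmT : Fintype.card T ≤ m)
    (cx cy g : T → ℕ) (hg : ∀ s, g s < K) (hN : 2 * ht K m ≤ N)
    (hm : ∀ s, far K m r ≤ cx s ∧ far K m r ≤ cy s ∧
      cx s + far K m r ≤ N ∧ cy s + far K m r ≤ N)
    (hfar : ∀ s s', s ≠ s' → cx s + far K m r ≤ cx s' ∨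
      cx s' + far K m r ≤ cx s ∨ cy s + far K m r ≤ cy s' ∨
      cy s' + far K m r ≤ cy s) :
    ∃ L : ℕ → Set (ℕ × ℕ), (∀ i < K, Conn (L i)) ∧
      (∀ i < K, ∀ c ∈ L i, c.1 < N ∧ c.2 < N) ∧
      (∀ i < K, ∀ i' < K, i ≠ i' → Disjoint (L i) (L i')) ∧
      ∀ s, ∀ x, cx s ≤ x → x ≤ cx s + r → (x, cy s) ∈ L (g s) := by
  classical
  set B := ht K m with hB
  have hB4 : B = 4 * K * m + 4 * K := by rw [hB]; unfold ht; ring
  have hBpos : 0 < B := by
    have : 0 ≤ 4 * K * m := Nat.zero_le _
    omega
  -- a free zone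
  obtain ⟨z, hzm, hz⟩ : ∃ z ≤ m, ∀ s, (cy s % B) / (4 * K) ≠ z := by
    by_contra hcon
    push Not at hcon
    have h1 : (Finset.range (m + 1)) ⊆ Finset.univ.image (fun s => (cy s % B) / (4 * K)) := by
      intro z hz
      obtain ⟨s, hs⟩ := hcon z (by
        have := Finset.mem_range.1 hz
        omega)
      exact Finset.mem_image.2 ⟨s, Finset.mem_univ _, hs⟩
    have h2 := Finset.card_le_card h1
    have h3 : (Finset.univ.image (fun s => (cy s % B) / (4 * K))).card ≤ m :=
      Finset.card_image_le.trans hmT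
    rw [Finset.card_range] at h2
    omega
  have hz4 : 4 * K * z ≤ 4 * K * m := Nat.mul_le_mul_left _ hzm
  set b₀ := 4 * K * z + 2 * K with hb₀
  have hb₀B : b₀ < B := by omega
  have hDB : far K m r = B + K + r + 1 := by
    unfold far
    rw [hB]
  -- the strip and the height in the strip
  have hv : ∀ s, 2 * K ≤ (cy s - b₀) % B ∧ (cy s - b₀) % B + 2 * K < B + 1 := by
    intro s
    have hcy := (hm s).2.1
    have h1 : cy s = B * (cy s / B) + cy s % B := (Nat.div_add_mod _ _).symm
    have h2 := Nat.mod_lt (cy s) hBpos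
    have h3 := hz s
    set t := cy s % B with ht'
    have h4 : t < 4 * K * z ∨ 4 * K * z + 4 * K ≤ t := by
      by_contra hcon
      push Not at hcon
      apply h3
      rw [Nat.div_eq_iff (by omega)]
      constructor
      · rw [mul_comm]; omega
      · rw [mul_comm] at *
        omega
    have hq : 1 ≤ cy s / B := by
      rw [Nat.one_le_div_iff hBpos]
      omega
    have hq' : B ≤ B * (cy s / B) := Nat.le_mul_of_pos_right _ hq
    rcases h4 with h4 | h4
    · have h5 : cy s - b₀ = (B + t - b₀) + B * (cy s / B - 1) := by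
        have : B * (cy s / B - 1) = B * (cy s / B) - B := by
          rw [Nat.mul_sub, mul_one]
        rw [this]
        omega
      rw [h5, Nat.add_mul_mod_self_left, Nat.mod_eq_of_lt (by omega)]
      omega
    · have h5 : cy s - b₀ = (t - b₀) + B * (cy s / B) := by omega
      rw [h5, Nat.add_mul_mod_self_left, Nat.mod_eq_of_lt (by omega)]
      omega
  set js : T → ℕ := fun s => (cy s - b₀) / B with hjs
  set w : T → ℕ := fun s => (cy s - b₀) % B - 2 * pos K (js s) (g s) with hw
  have hcyeq : ∀ s, cy s = b₀ + B * js s + (cy s - b₀) % B := by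
    intro s
    have hcy := (hm s).2.1
    have := Nat.div_add_mod (cy s - b₀) B
    simp only [hjs]
    omega
  have hpos : ∀ j, ∀ i < K, pos K j i < K := by
    intro j i hi
    unfold pos
    split_ifs <;> omega
  have hwle : ∀ s, w s + 2 * K ≤ B := by
    intro s
    have := hv s
    simp only [hw]
    omega
  set u : ℕ → ℕ → ℕ := fun j => tent (Finset.univ.filter (fun s => js s = j)) r cx w with hu
  set X₀ := N - K with hX₀
  have hLip : ∀ j x, u j x ≤ u j (x + 1) + 1 ∧ u j (x + 1) ≤ u j x + 1 := fun j x =>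
    tent_lip _ _ _ _ _
  have huB : ∀ j x, u j x + 2 * K ≤ B := by
    intro j x
    have h1 : u j x ≤ B - 2 * K := by
      refine Finset.sup_le ?_
      intro s _
      have := hwle s
      omega
    omega
  have hl : ∀ j x, x ≤ K → u j x = 0 := by
    intro j x hx
    refine tent_zero ?_
    intro s _
    have h1 := hwle s
    have h2 := (hm s).1
    unfold dst
    omega
  have hr : ∀ j x, X₀ ≤ x → u j x = 0 := by
    intro j x hx
    refine tent_zero ?_
    intro s _
    have h1 := hwle s
    have h2 := (hm s).2.2.1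
    unfold dst
    omega
  set J := (N - b₀) / B with hJ
  have hJ1 : 1 ≤ J := by
    rw [hJ, Nat.one_le_div_iff hBpos]
    omega
  have hJB : b₀ + B * J ≤ N := by
    have := Nat.mul_div_le (N - b₀) B
    rw [← hJ] at this
    omega
  have hKX : K ≤ X₀ := by omega
  refine ⟨Snake K B b₀ X₀ u J, ?_, ?_, ?_, ?_⟩
  · intro i hi
    obtain ⟨J', hJ'⟩ : ∃ J', J = J' + 1 := ⟨J - 1, by omega⟩
    rw [hJ']
    exact Snake.conn hLip huB hl hr hi J'
  · intro i hi c hc
    have := Snake.bound huB hi hc
    omega
  · intro i hi i' hi' hii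
    rw [Set.disjoint_left]
    intro c hc hc'
    exact Snake.disj hLip huB hl hr hKX hi hi' hii hc hc'
  · intro s x hx1 hx2
    left
    have hms := hm s
    have hjJ : js s < J := by
      have h1 : js s + 1 ≤ J := by
        rw [hJ, Nat.le_div_iff_mul_le hBpos]
        have h2 := hcyeq s
        have h3 : (js s + 1) * B = B * js s + B := by ring
        rw [h3]
        omega
      omega
    refine ⟨js s, hjJ, ?_⟩
    rw [mem_Lane]
    have hgs := hg s
    have h1 : u (js s) x = w s := by
      have hmem : s ∈ Finset.univ.filter (fun s' => js s' = js s) :=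
        Finset.mem_filter.2 ⟨Finset.mem_univ _, rfl⟩
      refine tent_eq hmem hx1 hx2 ?_
      intro s' hs' hne
      have h2 := (Finset.mem_filter.1 hs').2
      have h3 := hwle s'
      have h4 := hcyeq s
      have h5 := hcyeq s'
      have h6 := hv s
      have h7 := hv s'
      rw [h2] at h5
      have h8 := hfar s s' (fun h => hne h.symm)
      unfold dst
      omega
    refine ⟨by simp only; omega, Or.inl ⟨by simp only; omega, ?_⟩⟩
    simp only
    rw [h1]
    have h2 := hcyeq s
    have h3 := hv s
    have h4 := hpos (js s) (g s) hgs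
    simp only [hw]
    omega

end Gad
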