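import Mathlib

/-!
# Lanes in a snake

`K` disjoint connected sets of cells (lanes) in an array, running through all horizontal strips of
height `B` (boustrophedon); in the strip `j` the lanes follow a `1`-Lipschitz function `u j`.
-/

open Set

namespace Gad

/-- Adjacent cells. -/
def Adj (a b : ℕ × ℕ) : Prop :=
  (a.1 = b.1 ∧ (a.2 + 1 = b.2 ∨ b.2 + 1 = a.2)) ∨ (a.2 = b.2 ∧ (a.1 + 1 = b.1 ∨ b.1 + 1 = a.1))

/-- Connected sets of cells. -/
def Conn (Q : Set (ℕ × ℕ)) : Prop :=
  Q.Nonempty ∧ ∀ a ∈ Q, ∀ b ∈ Q,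
    Relation.ReflTransGen (fun x y => Adj x y ∧ x ∈ Q ∧ y ∈ Q) a b

lemma Conn.mono_step {Q R : Set (ℕ × ℕ)} (h : Q ⊆ R) {a b : ℕ × ℕ}
    (hab : Relation.ReflTransGen (fun x y => Adj x y ∧ x ∈ Q ∧ y ∈ Q) a b) :
    Relation.ReflTransGen (fun x y => Adj x y ∧ x ∈ R ∧ y ∈ R) a b := by
  induction hab with
  | refl => exact Relation.ReflTransGen.refl
  | tail _ h2 ih => exact ih.tail ⟨h2.1, h h2.2.1, h h2.2.2⟩

lemma Conn.union {Q R : Set (ℕ × ℕ)} (hQ : Conn Q) (hR : Conn R) (h : (Q ∩ R).Nonempty) :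
    Conn (Q ∪ R) := by
  obtain ⟨c, hcQ, hcR⟩ := h
  refine ⟨hQ.1.mono subset_union_left, ?_⟩
  rintro a (ha | ha) b (hb | hb)
  · exact Conn.mono_step subset_union_left (hQ.2 a ha b hb)
  · exact (Conn.mono_step subset_union_left (hQ.2 a ha c hcQ)).trans
      (Conn.mono_step subset_union_right (hR.2 c hcR b hb))
  · exact (Conn.mono_step subset_union_right (hR.2 a ha c hcR)).trans
      (Conn.mono_step subset_union_left (hQ.2 c hcQ b hb))
  · exact Conn.mono_step subset_union_right (hR.2 a ha b hb)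

lemma Conn.single (c : ℕ × ℕ) : Conn {c} := by
  refine ⟨singleton_nonempty c, ?_⟩
  rintro a rfl b rfl
  exact Relation.ReflTransGen.refl

lemma Adj.symm {a b : ℕ × ℕ} (h : Adj a b) : Adj b a := by
  unfold Adj at *
  omega

lemma Conn.pair {a b : ℕ × ℕ} (h : Adj a b ∨ a = b) : Conn {a, b} := by
  rcases h with h | rfl
  · refine ⟨⟨a, Or.inl rfl⟩, ?_⟩
    rintro x (rfl | rfl) y (rfl | rfl)
    · exact Relation.ReflTransGen.refl
    · exact Relation.ReflTransGen.single ⟨h, Or.inl rfl, Or.inr rfl⟩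
    · exact Relation.ReflTransGen.single ⟨h.symm, Or.inr rfl, Or.inl rfl⟩
    · exact Relation.ReflTransGen.refl
  · rw [pair_eq_singleton]
    exact Conn.single a

/-- The lane following `h` on the columns `a, …, b`. -/
def Lane (h : ℕ → ℕ) (a b : ℕ) : Set (ℕ × ℕ) :=
  {c | a ≤ c.1 ∧ ((c.1 ≤ b ∧ c.2 = h c.1) ∨ (c.1 < b ∧ c.2 = h (c.1 + 1)))}

lemma mem_Lane {h : ℕ → ℕ} {a b : ℕ} {c : ℕ × ℕ} : c ∈ Lane h a b ↔
    a ≤ c.1 ∧ ((c.1 ≤ b ∧ c.2 = h c.1) ∨ (c.1 < b ∧ c.2 = h (c.1 + 1))) := Iff.rfl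

lemma Lane.conn {h : ℕ → ℕ} (hL : ∀ x, h x ≤ h (x + 1) + 1 ∧ h (x + 1) ≤ h x + 1) (a : ℕ) :
    ∀ t, Conn (Lane h a (a + t)) := by
  intro t
  induction t with
  | zero =>
    have : Lane h a (a + 0) = {(a, h a)} := by
      ext ⟨x, y⟩
      simp only [mem_Lane, mem_singleton_iff, Prod.mk.injEq]
      constructor
      · rintro ⟨h1, h2 | h2⟩
        · obtain rfl : x = a := by omega
          exact ⟨rfl, h2.2⟩
        · omega
      · rintro ⟨rfl, rfl⟩
        exact ⟨le_refl _, Or.inl ⟨by omega, rfl⟩⟩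
    rw [this]
    exact Conn.single _
  | succ t ih =>
    have h1 : Conn {(a + t, h (a + t)), (a + t, h (a + t + 1))} := by
      refine Conn.pair ?_
      have := hL (a + t)
      unfold Adj
      simp only [Prod.mk.injEq, true_and]
      omega
    have h2 : Conn {(a + t, h (a + t + 1)), (a + t + 1, h (a + t + 1))} := by
      refine Conn.pair (Or.inl ?_)
      unfold Adj
      simp
    have h3 := (ih.union h1 ⟨(a + t, h (a + t)), ⟨by simp only; omega,
      Or.inl ⟨le_refl _, rfl⟩⟩, Or.inl rfl⟩).union h2 ⟨(a + t, h (a + t + 1)),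
      Or.inr (Or.inr rfl), Or.inl rfl⟩
    have e : Lane h a (a + (t + 1)) = Lane h a (a + t) ∪
        {(a + t, h (a + t)), (a + t, h (a + t + 1))} ∪
        {(a + t, h (a + t + 1)), (a + t + 1, h (a + t + 1))} := by
      ext ⟨x, y⟩
      simp only [mem_Lane, mem_union, mem_insert_iff, mem_singleton_iff, Prod.mk.injEq]
      constructor
      · rintro ⟨h4, ⟨h5, h6⟩ | ⟨h5, h6⟩⟩
        · by_cases h7 : x = a + t + 1
          · subst h7; right; right; exact ⟨rfl, h6⟩
          · left; left; exact ⟨h4, Or.inl ⟨by omega, h6⟩⟩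
        · by_cases h7 : x = a + t
          · subst h7; right; left; exact ⟨rfl, h6⟩
          · left; left; exact ⟨h4, Or.inr ⟨by omega, h6⟩⟩
      · rintro ((⟨h4, ⟨h5, h6⟩ | ⟨h5, h6⟩⟩ | ⟨rfl, rfl⟩ | ⟨rfl, rfl⟩) | ⟨rfl, rfl⟩ | ⟨rfl, rfl⟩)
        · exact ⟨h4, Or.inl ⟨by omega, h6⟩⟩
        · exact ⟨h4, Or.inr ⟨by omega, h6⟩⟩
        · exact ⟨by omega, Or.inl ⟨by omega, rfl⟩⟩
        · exact ⟨by omega, Or.inr ⟨by omega, rfl⟩⟩
        · exact ⟨by omega, Or.inr ⟨by omega, rfl⟩⟩
        · exact ⟨by omega, Or.inl ⟨by omega, rfl⟩⟩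
    rw [e]
    exact h3

/-- Vertical segment. -/
def Vert (x y₁ y₂ : ℕ) : Set (ℕ × ℕ) := {c | c.1 = x ∧ y₁ ≤ c.2 ∧ c.2 ≤ y₂}

lemma mem_Vert {x y₁ y₂ : ℕ} {c : ℕ × ℕ} : c ∈ Vert x y₁ y₂ ↔ c.1 = x ∧ y₁ ≤ c.2 ∧ c.2 ≤ y₂ :=
  Iff.rfl

lemma Vert.conn (x y : ℕ) : ∀ t, Conn (Vert x y (y + t)) := by
  intro t
  induction t with
  | zero =>
    have : Vert x y (y + 0) = {(x, y)} := by
      ext ⟨a, b⟩
      simp only [mem_Vert, mem_singleton_iff, Prod.mk.injEq]
      omega
    rw [this]
    exact Conn.single _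
  | succ t ih =>
    have h1 : Conn {(x, y + t), (x, y + t + 1)} := by
      refine Conn.pair (Or.inl ?_)
      unfold Adj
      simp
    have h2 := ih.union h1 ⟨(x, y + t), ⟨rfl, by simp only; omega, by simp⟩, Or.inl rfl⟩
    have e : Vert x y (y + (t + 1)) = Vert x y (y + t) ∪ {(x, y + t), (x, y + t + 1)} := by
      ext ⟨a, b⟩
      simp only [mem_Vert, mem_union, mem_insert_iff, mem_singleton_iff, Prod.mk.injEq]
      omega
    rw [e]
    exact h2

/-- Position of the lane `i` in the strip `j`. -/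
def pos (K j i : ℕ) : ℕ := if j % 2 = 0 then i else K - 1 - i

/-- Column of the connector of the lane `i` above the strip `j`. -/
def ccol (K X₀ j i : ℕ) : ℕ := if j % 2 = 0 then X₀ + (K - 1 - i) else K - 1 - i

/-- The lane `i` of the snake. -/
def Snake (K B b₀ X₀ : ℕ) (u : ℕ → ℕ → ℕ) (J i : ℕ) : Set (ℕ × ℕ) :=
  {c | (∃ j < J, c ∈ Lane (fun x => b₀ + B * j + u j x + 2 * pos K j i) (K - 1 - i)
      (X₀ + (K - 1 - i))) ∨
    (∃ j, j + 1 < J ∧ c ∈ Vert (ccol K X₀ j i) (b₀ + B * j + 2 * pos K j i)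
      (b₀ + B * (j + 1) + 2 * pos K (j + 1) i))}

variable {K B b₀ X₀ : ℕ} {u : ℕ → ℕ → ℕ}

lemma Snake.conn (hLip : ∀ j x, u j x ≤ u j (x + 1) + 1 ∧ u j (x + 1) ≤ u j x + 1)
    (hB : ∀ j x, u j x + 2 * K ≤ B) (hl : ∀ j x, x ≤ K → u j x = 0)
    (hr : ∀ j x, X₀ ≤ x → u j x = 0) {i : ℕ} (hi : i < K) :
    ∀ J, Conn (Snake K B b₀ X₀ u (J + 1) i) := by
  have hlane : ∀ j, Conn (Lane (fun x => b₀ + B * j + u j x + 2 * pos K j i) (K - 1 - i)
      (X₀ + (K - 1 - i))) := by
    intro j
    rw [add_comm X₀]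
    refine Lane.conn ?_ _ X₀
    intro x
    have := hLip j x
    constructor <;> omega
  intro J
  induction J with
  | zero =>
    have : Snake K B b₀ X₀ u (0 + 1) i = Lane (fun x => b₀ + B * 0 + u 0 x + 2 * pos K 0 i)
        (K - 1 - i) (X₀ + (K - 1 - i)) := by
      ext c
      constructor
      · rintro (⟨j, hj, hc⟩ | ⟨j, hj, hc⟩)
        · obtain rfl : j = 0 := by omega
          exact hc
        · omega
      · intro hc
        exact Or.inl ⟨0, by omega, hc⟩
    rw [this]
    exact hlane 0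
  | succ J ih =>
    have hv : Conn (Vert (ccol K X₀ J i) (b₀ + B * J + 2 * pos K J i)
        (b₀ + B * (J + 1) + 2 * pos K (J + 1) i)) := by
      have h1 : b₀ + B * J + 2 * pos K J i ≤ b₀ + B * (J + 1) + 2 * pos K (J + 1) i := by
        have h2 := hB J 0
        have h3 : pos K J i ≤ K := by unfold pos; split_ifs <;> omega
        have h4 : B * (J + 1) = B * J + B := by ring
        omega
      obtain ⟨t, ht⟩ := Nat.exists_eq_add_of_le h1
      rw [ht]
      exact Vert.conn _ _ t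
    have m1 : (ccol K X₀ J i, b₀ + B * J + 2 * pos K J i) ∈
        Lane (fun x => b₀ + B * J + u J x + 2 * pos K J i) (K - 1 - i) (X₀ + (K - 1 - i)) := by
      rw [mem_Lane]
      have h0 : u J (ccol K X₀ J i) = 0 := by
        unfold ccol
        split_ifs
        · exact hr _ _ (by omega)
        · exact hl _ _ (by omega)
      simp only
      rw [h0]
      unfold ccol
      split_ifs
      · exact ⟨by omega, Or.inl ⟨le_refl _, by omega⟩⟩
      · exact ⟨le_refl _, Or.inl ⟨by omega, by omega⟩⟩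
    have m2 : (ccol K X₀ J i, b₀ + B * (J + 1) + 2 * pos K (J + 1) i) ∈
        Lane (fun x => b₀ + B * (J + 1) + u (J + 1) x + 2 * pos K (J + 1) i) (K - 1 - i)
          (X₀ + (K - 1 - i)) := by
      rw [mem_Lane]
      have h0 : u (J + 1) (ccol K X₀ J i) = 0 := by
        unfold ccol
        split_ifs
        · exact hr _ _ (by omega)
        · exact hl _ _ (by omega)
      simp only
      rw [h0]
      unfold ccol
      split_ifs
      · exact ⟨by omega, Or.inl ⟨le_refl _, by omega⟩⟩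
      · exact ⟨le_refl _, Or.inl ⟨by omega, by omega⟩⟩
    have hle : b₀ + B * J + 2 * pos K J i ≤ b₀ + B * (J + 1) + 2 * pos K (J + 1) i := by
      have h2 := hB J 0
      have h3 : pos K J i ≤ K := by unfold pos; split_ifs <;> omega
      have h4 : B * (J + 1) = B * J + B := by ring
      omega
    have h5 := (ih.union hv ⟨_, Or.inl ⟨J, by omega, m1⟩, ⟨rfl, le_refl _, hle⟩⟩).union
      (hlane (J + 1)) ⟨_, Or.inr ⟨rfl, hle, le_refl _⟩, m2⟩
    have e : Snake K B b₀ X₀ u (J + 1 + 1) i = Snake K B b₀ X₀ u (J + 1) i ∪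
        Vert (ccol K X₀ J i) (b₀ + B * J + 2 * pos K J i)
          (b₀ + B * (J + 1) + 2 * pos K (J + 1) i) ∪
        Lane (fun x => b₀ + B * (J + 1) + u (J + 1) x + 2 * pos K (J + 1) i) (K - 1 - i)
          (X₀ + (K - 1 - i)) := by
      ext c
      constructor
      · rintro (⟨j, hj, hc⟩ | ⟨j, hj, hc⟩)
        · by_cases h6 : j = J + 1
          · subst h6; exact Or.inr hc
          · exact Or.inl (Or.inl (Or.inl ⟨j, by omega, hc⟩))
        · by_cases h6 : j = J
          · subst h6; exact Or.inl (Or.inr hc)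
          · exact Or.inl (Or.inl (Or.inr ⟨j, by omega, hc⟩))
      · rintro (((⟨j, hj, hc⟩ | ⟨j, hj, hc⟩) | hc) | hc)
        · exact Or.inl ⟨j, by omega, hc⟩
        · exact Or.inr ⟨j, by omega, hc⟩
        · exact Or.inr ⟨J, by omega, hc⟩
        · exact Or.inl ⟨J + 1, by omega, hc⟩
    rw [e]
    exact h5

lemma mul_step {j j' : ℕ} (h : j < j') : B * j + B ≤ B * j' := by
  have : B * (j + 1) ≤ B * j' := Nat.mul_le_mul_left _ h
  rw [Nat.mul_succ] at this
  exact this

lemma Snake.disj (hLip : ∀ j x, u j x ≤ u j (x + 1) + 1 ∧ u j (x + 1) ≤ u j x + 1)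
    (hB : ∀ j x, u j x + 2 * K ≤ B) (hl : ∀ j x, x ≤ K → u j x = 0)
    (hr : ∀ j x, X₀ ≤ x → u j x = 0) (hKX : K ≤ X₀) {i i' : ℕ} (hi : i < K) (hi' : i' < K)
    (hii : i ≠ i') {J : ℕ} {c : ℕ × ℕ} (hc : c ∈ Snake K B b₀ X₀ u J i)
    (hc' : c ∈ Snake K B b₀ X₀ u J i') : False := by
  obtain ⟨x, y⟩ := c
  have key : ∀ i i' : ℕ, i < K → i' < K → i ≠ i' → ∀ j, (x, y) ∈
      Lane (fun x => b₀ + B * j + u j x + 2 * pos K j i) (K - 1 - i) (X₀ + (K - 1 - i)) →
      ∀ j', (x, y) ∈ Vert (ccol K X₀ j' i') (b₀ + B * j' + 2 * pos K j' i')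
      (b₀ + B * (j' + 1) + 2 * pos K (j' + 1) i') → False := by
    intro i i' hi hi' hii j hc j' hc'
    rw [mem_Lane] at hc
    rw [mem_Vert] at hc'
    simp only at hc hc'
    obtain ⟨h1, h2⟩ := hc
    obtain ⟨h3, h4, h5⟩ := hc'
    have b1 := hB j x
    have b2 := hB j (x + 1)
    have hp : pos K j i < K := by unfold pos; split_ifs <;> omega
    have hp1 : pos K (j' + 1) i' < K := by unfold pos; split_ifs <;> omega
    rcases Nat.lt_trichotomy j j' with h6 | h6 | h6
    · have := mul_step (B := B) h6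
      rcases h2 with h2 | h2 <;> omega
    · subst h6
      have z1 : u j x = 0 := by
        unfold ccol at h3
        split_ifs at h3
        · exact hr _ _ (by omega)
        · exact hl _ _ (by omega)
      have z2 : u j (x + 1) = 0 := by
        unfold ccol at h3
        split_ifs at h3
        · exact hr _ _ (by omega)
        · exact hl _ _ (by omega)
      rw [z1, z2] at h2
      unfold pos at h2 h4 h5
      unfold ccol at h3
      split_ifs at h2 h3 h4 h5 <;> omega
    · rcases Nat.lt_or_ge (j' + 1) j with h7 | h7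
      · have := mul_step (B := B) h7
        rcases h2 with h2 | h2 <;> omega
      · obtain rfl : j = j' + 1 := by omega
        have z1 : u (j' + 1) x = 0 := by
          unfold ccol at h3
          split_ifs at h3
          · exact hr _ _ (by omega)
          · exact hl _ _ (by omega)
        have z2 : u (j' + 1) (x + 1) = 0 := by
          unfold ccol at h3
          split_ifs at h3
          · exact hr _ _ (by omega)
          · exact hl _ _ (by omega)
        rw [z1, z2] at h2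
        unfold pos at h2 h4 h5
        unfold ccol at h3
        split_ifs at h2 h3 h4 h5 <;> omega
  rcases hc with ⟨j, _, hc⟩ | ⟨j, _, hc⟩ <;> rcases hc' with ⟨j', _, hc'⟩ | ⟨j', _, hc'⟩
  · rw [mem_Lane] at hc hc'
    simp only at hc hc'
    obtain ⟨h1, h2⟩ := hc
    obtain ⟨h3, h4⟩ := hc'
    have b1 := hB j x
    have b2 := hB j (x + 1)
    have b3 := hB j' x
    have b4 := hB j' (x + 1)
    have hp : pos K j i < K := by unfold pos; split_ifs <;> omega
    have hp' : pos K j' i' < K := by unfold pos; split_ifs <;> omega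
    rcases Nat.lt_trichotomy j j' with h6 | h6 | h6
    · have := mul_step (B := B) h6
      omega
    · subst h6
      have l1 := hLip j x
      have hpp : pos K j i ≠ pos K j i' := by unfold pos; split_ifs <;> omega
      omega
    · have := mul_step (B := B) h6
      omega
  · exact key i i' hi hi' hii j hc j' hc'
  · exact key i' i hi' hi hii.symm j' hc' j hc
  · rw [mem_Vert] at hc hc'
    simp only at hc hc'
    obtain ⟨h1, h2, h3⟩ := hc
    obtain ⟨h4, h5, h6⟩ := hc'
    have b1 := hB j x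
    have hp : pos K (j + 1) i < K := by unfold pos; split_ifs <;> omega
    have hp' : pos K (j' + 1) i' < K := by unfold pos; split_ifs <;> omega
    rcases Nat.lt_trichotomy j j' with h7 | h7 | h7
    · rcases Nat.lt_or_ge (j + 1) j' with h8 | h8
      · have := mul_step (B := B) h8
        omega
      · obtain rfl : j' = j + 1 := by omega
        unfold ccol at h1 h4
        split_ifs at h1 h4 <;> omega
    · subst h7
      unfold ccol at h1 h4
      split_ifs at h1 h4 <;> omega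
    · rcases Nat.lt_or_ge (j' + 1) j with h8 | h8
      · have := mul_step (B := B) h8
        omega
      · obtain rfl : j = j' + 1 := by omega
        unfold ccol at h1 h4
        split_ifs at h1 h4 <;> omega

lemma Snake.bound (hB : ∀ j x, u j x + 2 * K ≤ B) {i J : ℕ} (hi : i < K) {c : ℕ × ℕ}
    (hc : c ∈ Snake K B b₀ X₀ u J i) : c.1 < X₀ + K ∧ c.2 < b₀ + B * J := by
  obtain ⟨x, y⟩ := c
  rcases hc with ⟨j, hj, hc⟩ | ⟨j, hj, hc⟩
  · rw [mem_Lane] at hc
    simp only at hc
    obtain ⟨h1, h2⟩ := hc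
    have b1 := hB j x
    have b2 := hB j (x + 1)
    have hp : pos K j i < K := by unfold pos; split_ifs <;> omega
    have := mul_step (B := B) hj
    constructor <;> simp only <;> omega
  · rw [mem_Vert] at hc
    simp only at hc
    obtain ⟨h1, h2, h3⟩ := hc
    have b1 := hB j x
    have hp : pos K (j + 1) i < K := by unfold pos; split_ifs <;> omega
    have := mul_step (B := B) hj
    unfold ccol at h1
    constructor
    · simp only
      split_ifs at h1 <;> omega
    · simp only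
      omega

end Gad
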